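import Mathlib
import Pool.Agent.R178.HC.YD

/-!
Products over the hook lengths of a Young diagram, in terms of its beta numbers.
-/

set_option autoImplicit false

open Finset Matrix

namespace Pool.Agent.H390.Hook

open Pool.Agent.R178.HC Pool.Agent.R153.Sp

/-- The hook length of the cell `c` of the Young diagram `μ`: the number of cells weakly to the
right of `c` plus the number of cells weakly below `c`, minus one. -/
def hookLen (μ : YoungDiagram) (c : ℕ × ℕ) : ℕ := (μ.rowLen c.1 - c.2) + (μ.colLen c.2 - c.1) - 1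

/-- beta numbers, as a function on `ℕ` -/
def mN (c : ℕ) (μ : YoungDiagram) (a : ℕ) : ℕ := μ.rowLen (c - 1 - a) + a

lemma mN_lt {c : ℕ} {μ : YoungDiagram} {b a : ℕ} (hba : b < a) : mN c μ b < mN c μ a := by
  unfold mN
  have h2 : c - 1 - a ≤ c - 1 - b := by omega
  have := μ.rowLen_anti _ _ h2
  omega

lemma rowprod {c : ℕ} {μ : YoungDiagram} (hc : μ.colLen 0 ≤ c) (p : ℕ → ℝ) {a : ℕ} (ha : a < c) :
    (∏ j ∈ range (μ.rowLen (c - 1 - a)), p (hookLen μ (c - 1 - a, j))) *
      ∏ b ∈ range a, p (mN c μ a - mN c μ b) = ∏ h ∈ Icc 1 (mN c μ a), p h := by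
  classical
  set i := c - 1 - a with hi
  have hcol : ∀ j, μ.colLen j ≤ c := fun j => (μ.colLen_anti 0 j (Nat.zero_le j)).trans hc
  have hiff : ∀ i j, i < μ.colLen j ↔ j < μ.rowLen i := fun i j => by
    rw [← YoungDiagram.mem_iff_lt_colLen, ← YoungDiagram.mem_iff_lt_rowLen]
  have hma : mN c μ a = μ.rowLen i + a := rfl
  have hAinj : Set.InjOn (fun j => hookLen μ (i, j)) (range (μ.rowLen i) : Set ℕ) := by
    intro j hj j' hj' h
    rw [Finset.mem_coe, mem_range] at hj hj'
    simp only [hookLen] at h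
    have h1 := (hiff i j).2 hj
    have h2 := (hiff i j').2 hj'
    rcases lt_trichotomy j j' with h3 | h3 | h3
    · have := μ.colLen_anti j j' h3.le
      omega
    · exact h3
    · have := μ.colLen_anti j' j h3.le
      omega
  have hBinj : Set.InjOn (fun b => mN c μ a - mN c μ b) (range a : Set ℕ) := by
    intro b hb b' hb' h
    rw [Finset.mem_coe, mem_range] at hb hb'
    simp only at h
    have h1 : mN c μ b < mN c μ a := mN_lt hb
    have h2 : mN c μ b' < mN c μ a := mN_lt hb'
    rcases lt_trichotomy b b' with h3 | h3 | h3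
    · have : mN c μ b < mN c μ b' := mN_lt h3
      omega
    · exact h3
    · have : mN c μ b' < mN c μ b := mN_lt h3
      omega
  have hdisj : Disjoint ((range (μ.rowLen i)).image (fun j => hookLen μ (i, j)))
      ((range a).image (fun b => mN c μ a - mN c μ b)) := by
    rw [Finset.disjoint_left]
    intro x hx hx'
    rw [mem_image] at hx hx'
    obtain ⟨j, hj, rfl⟩ := hx
    obtain ⟨b, hb, hbe⟩ := hx'
    rw [mem_range] at hj hb
    have h1 := (hiff i j).2 hj
    have h2 : mN c μ b < mN c μ a := mN_lt hb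
    have h3 : mN c μ b = μ.rowLen (c - 1 - b) + b := rfl
    simp only [hookLen] at hbe
    have h4 := hiff (c - 1 - b) j
    have h5 := hcol j
    by_cases h6 : c - 1 - b < μ.colLen j
    · have h7 := h4.1 h6
      omega
    · have h7 : ¬ j < μ.rowLen (c - 1 - b) := fun h => h6 (h4.2 h)
      omega
  have hunion : ((range (μ.rowLen i)).image (fun j => hookLen μ (i, j))) ∪
      ((range a).image (fun b => mN c μ a - mN c μ b)) = Icc 1 (mN c μ a) := by
    apply Finset.eq_of_subset_of_card_le
    · intro x hx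
      rw [mem_union, mem_image, mem_image] at hx
      rw [mem_Icc]
      rcases hx with ⟨j, hj, rfl⟩ | ⟨b, hb, rfl⟩
      · rw [mem_range] at hj
        have h1 := (hiff i j).2 hj
        have h5 := hcol j
        simp only [hookLen]
        omega
      · rw [mem_range] at hb
        have h2 : mN c μ b < mN c μ a := mN_lt hb
        omega
    · rw [card_union_of_disjoint hdisj, card_image_of_injOn hAinj, card_image_of_injOn hBinj,
        card_range, card_range, Nat.card_Icc, hma]
      omega
  rw [← hunion, prod_union hdisj, prod_image hAinj, prod_image hBinj]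

lemma prod_cells {c : ℕ} {μ : YoungDiagram} (hc : μ.colLen 0 ≤ c) (f : ℕ × ℕ → ℝ) :
    ∏ x ∈ μ.cells, f x = ∏ i ∈ range c, ∏ j ∈ range (μ.rowLen i), f (i, j) := by
  have : μ.cells = (range c).biUnion (fun i => μ.row i) := by
    ext ⟨i, j⟩
    rw [mem_biUnion]
    constructor
    · intro hx
      rw [YoungDiagram.mem_cells] at hx
      refine ⟨i, ?_, YoungDiagram.mem_row_iff.2 ⟨hx, rfl⟩⟩
      rw [mem_range]
      have h1 : (i, 0) ∈ μ := μ.up_left_mem le_rfl (Nat.zero_le _) hx
      have h2 := YoungDiagram.mem_iff_lt_colLen.1 h1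
      omega
    · rintro ⟨k, _, hk⟩
      exact (YoungDiagram.mem_row_iff.1 hk).1
  rw [this, prod_biUnion]
  · apply prod_congr rfl
    intro i _
    rw [YoungDiagram.row_eq_prod, prod_product, prod_singleton]
  · intro i _ j _ hij
    rw [Function.onFun, Finset.disjoint_left]
    intro x hx hx'
    exact hij ((YoungDiagram.mem_row_iff.1 hx).2.symm.trans (YoungDiagram.mem_row_iff.1 hx').2)

/-- Product over the hooks and the differences of the beta numbers. -/
theorem hook_prod {c : ℕ} {μ : YoungDiagram} (hc : μ.colLen 0 ≤ c) (p : ℕ → ℝ) :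
    (∏ x ∈ μ.cells, p (hookLen μ x)) * ∏ a ∈ range c, ∏ b ∈ range a, p (mN c μ a - mN c μ b) =
      ∏ a ∈ range c, ∏ h ∈ Icc 1 (mN c μ a), p h := by
  rw [prod_cells hc, ← prod_range_reflect, ← prod_mul_distrib]
  refine prod_congr rfl fun a ha => ?_
  rw [mem_range] at ha
  exact rowprod hc p ha

lemma prod_fin_range (c : ℕ) (f : ℕ → ℕ → ℝ) :
    ∏ i : Fin c, ∏ j ∈ Finset.Ioi i, f i j = ∏ a ∈ range c, ∏ b ∈ range a, f b a := by
  rw [Finset.prod_comm' (t' := univ) (s' := fun j : Fin c => Finset.Iio j) (by simp),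
    ← Fin.prod_univ_eq_prod_range (fun a => ∏ b ∈ range a, f b a)]
  refine prod_congr rfl fun j _ => ?_
  have : (range (j : ℕ)) = (Finset.Iio j).map Fin.valEmbedding := by
    rw [Fin.map_valEmbedding_Iio]
    ext x; simp
  rw [this, prod_map]
  rfl

end Pool.Agent.H390.Hook
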