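import Mathlib

/-!
The Desnanot-Jacobi identity for the leading minors of an infinite matrix, over `ℝ`.
-/

set_option autoImplicit false

open Finset Matrix

namespace Pool.Agent.H390.Hook

/-- The index `i` for `i < k`, and `k + p` afterwards. -/
def sft (k p i : ℕ) : ℕ := if i < k then i else k + p

/-- bordered minor -/
def bd (M : ℕ → ℕ → ℝ) (k p q : ℕ) : ℝ :=
  Matrix.det (Matrix.of fun i j : Fin (k + 1) => M (sft k p i) (sft k q j))

/-- leading minor -/
def ld (M : ℕ → ℕ → ℝ) (k : ℕ) : ℝ :=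
  Matrix.det (Matrix.of fun i j : Fin k => M i j)

lemma ld_eq_bd (M : ℕ → ℕ → ℝ) (k : ℕ) : ld M (k + 1) = bd M k 0 0 := by
  unfold ld bd
  congr 1
  ext i j
  simp only [Matrix.of_apply]
  have h : ∀ i : Fin (k + 1), sft k 0 i = i := by
    intro i
    unfold sft
    split_ifs with h
    · rfl
    · have := i.2; omega
  rw [h, h]

section block

variable {k : ℕ} (A : Matrix (Fin k) (Fin k) ℝ) (B : Matrix (Fin k) (Fin 2) ℝ)
  (C : Matrix (Fin 2) (Fin k) ℝ) (D : Matrix (Fin 2) (Fin 2) ℝ)

/-- bordered determinant -/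
def bb (p q : Fin 2) : ℝ :=
  (fromBlocks A (B.submatrix id (fun _ : Fin 1 => q)) (C.submatrix (fun _ : Fin 1 => p) id)
    (D.submatrix (fun _ : Fin 1 => p) (fun _ : Fin 1 => q))).det

lemma jac_inv (h : IsUnit A.det) :
    (fromBlocks A B C D).det * A.det = bb A B C D 0 0 * bb A B C D 1 1 - bb A B C D 0 1 * bb A B C D 1 0 := by
  have : Invertible A := Matrix.invertibleOfIsUnitDet A h
  have hb : ∀ p q, bb A B C D p q = A.det * (D - C * ⅟A * B) p q := by
    intro p q
    unfold bb
    rw [Matrix.det_fromBlocks₁₁, Matrix.det_fin_one]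
    congr 1
  rw [Matrix.det_fromBlocks₁₁, hb, hb, hb, hb, Matrix.det_fin_two]
  ring

lemma jac :
    (fromBlocks A B C D).det * A.det = bb A B C D 0 0 * bb A B C D 1 1 - bb A B C D 0 1 * bb A B C D 1 0 := by
  set f : ℝ → ℝ := fun u => (fromBlocks (A + u • (1 : Matrix (Fin k) (Fin k) ℝ)) B C D).det *
    (A + u • (1 : Matrix (Fin k) (Fin k) ℝ)).det with hf
  set g : ℝ → ℝ := fun u => bb (A + u • (1 : Matrix (Fin k) (Fin k) ℝ)) B C D 0 0 *
      bb (A + u • (1 : Matrix (Fin k) (Fin k) ℝ)) B C D 1 1 -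
      bb (A + u • (1 : Matrix (Fin k) (Fin k) ℝ)) B C D 0 1 *
      bb (A + u • (1 : Matrix (Fin k) (Fin k) ℝ)) B C D 1 0 with hg
  have hcA : Continuous fun u : ℝ => A + u • (1 : Matrix (Fin k) (Fin k) ℝ) := by fun_prop
  have hcb : ∀ p q, Continuous fun u : ℝ => bb (A + u • (1 : Matrix (Fin k) (Fin k) ℝ)) B C D p q := by
    intro p q
    unfold bb
    exact (Continuous.matrix_fromBlocks hcA continuous_const continuous_const continuous_const).matrix_det
  have hcf : Continuous f :=
    ((Continuous.matrix_fromBlocks hcA continuous_const continuous_const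
      continuous_const).matrix_det).mul hcA.matrix_det
  have hcg : Continuous g := ((hcb 0 0).mul (hcb 1 1)).sub ((hcb 0 1).mul (hcb 1 0))
  have hroots : {u : ℝ | (A + u • (1 : Matrix (Fin k) (Fin k) ℝ)).det = 0}.Finite := by
    have h1 : ∀ u : ℝ, (A + u • (1 : Matrix (Fin k) (Fin k) ℝ)).det = (-A).charpoly.eval u := by
      intro u
      rw [Matrix.eval_charpoly]
      congr 1
      rw [sub_neg_eq_add, add_comm, Matrix.smul_one_eq_diagonal]
      rfl
    have h2 : {u : ℝ | (A + u • (1 : Matrix (Fin k) (Fin k) ℝ)).det = 0} =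
        {u : ℝ | (-A).charpoly.IsRoot u} := by
      ext u
      simp only [Set.mem_setOf_eq, h1, Polynomial.IsRoot]
    rw [h2]
    exact Polynomial.finite_setOf_isRoot (Matrix.charpoly_monic _).ne_zero
  have hfg : f = g := by
    refine Continuous.ext_on (hroots.countable.dense_compl ℝ) hcf hcg ?_
    intro u hu
    exact jac_inv _ _ _ _ (isUnit_iff_ne_zero.mpr hu)
  have := congrFun hfg 0
  simpa [hf, hg] using this

end block

/-- Desnanot-Jacobi. -/
theorem jacobi (M : ℕ → ℕ → ℝ) (k : ℕ) :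
    ld M (k + 2) * ld M k = bd M k 0 0 * bd M k 1 1 - bd M k 0 1 * bd M k 1 0 := by
  set A : Matrix (Fin k) (Fin k) ℝ := Matrix.of fun i j => M i j
  set B : Matrix (Fin k) (Fin 2) ℝ := Matrix.of fun i j => M i (k + j)
  set C : Matrix (Fin 2) (Fin k) ℝ := Matrix.of fun i j => M (k + i) j
  set D : Matrix (Fin 2) (Fin 2) ℝ := Matrix.of fun i j => M (k + i) (k + j)
  have h := jac A B C D
  have h1 : ld M (k + 2) = (fromBlocks A B C D).det := by
    unfold ld
    rw [← Matrix.det_submatrix_equiv_self (finSumFinEquiv (m := k) (n := 2))]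
    congr 1
    ext i j
    rcases i with i | i <;> rcases j with j | j <;>
      simp [A, B, C, D, finSumFinEquiv]
  have h2 : ∀ p q : Fin 2, bd M k p q = bb A B C D p q := by
    intro p q
    unfold bd bb
    rw [← Matrix.det_submatrix_equiv_self (finSumFinEquiv (m := k) (n := 1))]
    congr 1
    ext i j
    rcases i with i | i <;> rcases j with j | j <;>
      simp [A, B, C, D, finSumFinEquiv, sft]
  rw [h1, show ld M k = A.det from rfl, h]
  have e00 := h2 0 0
  have e01 := h2 0 1
  have e10 := h2 1 0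
  have e11 := h2 1 1
  simp only [Fin.val_zero, Fin.val_one] at e00 e01 e10 e11
  rw [e00, e01, e10, e11]

end Pool.Agent.H390.Hook
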