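import Mathlib
import Pool.Agent.H390.Hook.Jacobi
import Pool.Agent.TH650.GB.CB

/-!
The Toda equation for weighted sums of squared Vandermonde determinants.
-/

set_option autoImplicit false

open Finset Matrix

namespace Pool.Agent.H390.Hook

/-- The sum over all functions of a symmetric function vanishing off the injective ones. -/
theorem sum_fun_eq {c : ℕ} {κ : Type*} [Fintype κ] [LinearOrder κ] (f : (Fin c → κ) → ℝ)
    (hsym : ∀ (I : Fin c → κ) (σ : Equiv.Perm (Fin c)), f (I ∘ σ) = f I)
    (h0 : ∀ I, ¬ Function.Injective I → f I = 0) :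
    ∑ I, f I = (c.factorial : ℝ) * ∑ I ∈ univ.filter (fun I : Fin c → κ => StrictMono I), f I := by
  classical
  have h1 : ∑ I, f I = ∑ I ∈ univ.filter (fun I : Fin c → κ => Function.Injective I), f I := by
    rw [Finset.sum_filter_of_ne]
    intro I _ hI
    by_contra h
    exact hI (h0 I h)
  have h2 : ∑ p ∈ (univ.filter (fun I : Fin c → κ => StrictMono I)) ×ˢ
      (univ : Finset (Equiv.Perm (Fin c))), f (p.1 ∘ p.2) =
      ∑ I ∈ univ.filter (fun I : Fin c → κ => Function.Injective I), f I := by
    refine Finset.sum_nbij' (fun p => p.1 ∘ p.2) (fun I => (I ∘ Tuple.sort I, (Tuple.sort I)⁻¹))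
      ?_ ?_ ?_ ?_ ?_
    · rintro ⟨a, σ⟩ h
      simp only [mem_product, mem_filter, mem_univ, true_and, and_true] at h ⊢
      exact h.injective.comp σ.injective
    · intro I h
      simp only [mem_product, mem_filter, mem_univ, true_and, and_true] at h ⊢
      exact (Tuple.monotone_sort I).strictMono_of_injective (h.comp (Tuple.sort I).injective)
    · rintro ⟨a, σ⟩ h
      simp only [mem_product, mem_filter, mem_univ, true_and, and_true] at h
      have e1 : (a ∘ σ) ∘ (Tuple.sort (a ∘ σ)) = (a ∘ σ) ∘ (σ⁻¹ : Equiv.Perm (Fin c)) := by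
        apply Tuple.unique_monotone
        · exact Tuple.monotone_sort _
        · have : (a ∘ σ) ∘ (σ⁻¹ : Equiv.Perm (Fin c)) = a := by
            funext i; simp
          rw [this]; exact h.monotone
      have e2 : (a ∘ σ) ∘ (σ⁻¹ : Equiv.Perm (Fin c)) = a := by
        funext i; simp
      have e3 : Tuple.sort (a ∘ σ) = σ⁻¹ := by
        ext1 i
        have := congrFun e1 i
        exact (h.injective.comp σ.injective) this
      simp only
      rw [e1, e2, e3, inv_inv]
    · intro I h
      funext i
      simp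
    · rintro ⟨a, σ⟩ h
      rfl
  rw [h1, ← h2, Finset.sum_product, Finset.mul_sum]
  refine Finset.sum_congr rfl fun a _ => ?_
  rw [Finset.sum_congr rfl fun σ _ => hsym a σ, Finset.sum_const, Finset.card_univ,
    Fintype.card_perm, Fintype.card_fin, nsmul_eq_mul]

/-- the moments -/
def mom {M : ℕ} (ω x : Fin M → ℝ) (i j : ℕ) : ℝ := ∑ m, ω m * x m ^ (i + j)

/-- Generalised Vandermonde determinant. -/
def gv {c : ℕ} (e : ℕ → ℕ) (y : Fin c → ℝ) : ℝ := Matrix.det (Matrix.of fun a j : Fin c => y a ^ (e j))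

theorem gram {c M : ℕ} (ω x : Fin M → ℝ) (e f : ℕ → ℕ) :
    Matrix.det (Matrix.of fun i j : Fin c => mom ω x (e i) (f j)) =
      ∑ I ∈ univ.filter (fun I : Fin c → Fin M => StrictMono I),
        (∏ a, ω (I a)) * (gv e (x ∘ I) * gv f (x ∘ I)) := by
  set A : Matrix (Fin c) (Fin M) ℝ := Matrix.of fun i m => ω m * x m ^ (e i) with hA
  set B : Matrix (Fin M) (Fin c) ℝ := Matrix.of fun m j => x m ^ (f j) with hB
  have h1 : (Matrix.of fun i j : Fin c => mom ω x (e i) (f j)) = A * B := by
    ext i j
    simp only [Matrix.of_apply, mom, Matrix.mul_apply, hA, hB]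
    exact Finset.sum_congr rfl fun m _ => by rw [pow_add]; ring
  have h2 := Pool.Agent.TH650.GB.cb A B
  rw [Fintype.card_fin] at h2
  rw [sum_fun_eq] at h2
  · have h3 : (c.factorial : ℝ) ≠ 0 := by positivity
    rw [h1, mul_left_cancel₀ h3 h2]
    refine Finset.sum_congr rfl fun I _ => ?_
    have e1 : (A.submatrix id I).det = (∏ a, ω (I a)) * gv e (x ∘ I) := by
      unfold gv
      rw [← Matrix.det_transpose (Matrix.of fun a j : Fin c => (x ∘ I) a ^ (e j)),
        ← Matrix.det_mul_row]
      congr 1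
    have e2 : (B.submatrix I id).det = gv f (x ∘ I) := by
      unfold gv
      congr 1
    rw [e1, e2]; ring
  · intro I σ
    have e1 : A.submatrix id (I ∘ σ) = (A.submatrix id I).submatrix id σ := rfl
    have e2 : B.submatrix (I ∘ σ) id = (B.submatrix I id).submatrix σ id := rfl
    rw [e1, e2, Matrix.det_permute, Matrix.det_permute']
    have : (((Equiv.Perm.sign σ : ℤˣ) : ℤ) : ℝ) * (((Equiv.Perm.sign σ : ℤˣ) : ℤ) : ℝ) = 1 := by
      rw [← Int.cast_mul, ← Units.val_mul, Int.units_mul_self]; simp
    linear_combination ((A.submatrix id I).det * (B.submatrix I id).det) * this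
  · intro I hI
    simp only [Function.Injective, not_forall] at hI
    obtain ⟨a, b, hab, hne⟩ := hI
    have : (B.submatrix I id).det = 0 := by
      apply Matrix.det_zero_of_row_eq hne
      funext j
      simp [hab]
    rw [this, mul_zero]

lemma vand_shift {k : ℕ} (y : Fin (k + 1) → ℝ) :
    gv (sft k 1) y = (∑ a, y a) * gv (fun i => i) y := by
  classical
  set V : Matrix (Fin (k + 1)) (Fin (k + 1)) ℝ := Matrix.of fun a j => y a ^ (j : ℕ) with hV
  set P : Polynomial ℝ := ∏ a, (Polynomial.X - Polynomial.C (y a)) with hP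
  have hmon : P.Monic := Polynomial.monic_prod_of_monic _ _ fun a _ => Polynomial.monic_X_sub_C _
  have hdeg : P.natDegree = k + 1 := by
    rw [hP, Polynomial.natDegree_prod_of_monic _ _ fun a _ => Polynomial.monic_X_sub_C _]
    simp
  have hk : P.coeff k = - ∑ a, y a := by
    have := Polynomial.prod_X_sub_C_coeff_card_pred (univ : Finset (Fin (k + 1))) y (by simp)
    simpa using this
  have hrel : ∀ a, y a ^ (k + 1) = ∑ i : Fin (k + 1), (-P.coeff i) • V a i := by
    intro a
    have h0 : P.eval (y a) = 0 := by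
      rw [hP, Polynomial.eval_prod]
      apply Finset.prod_eq_zero (mem_univ a)
      simp
    rw [Polynomial.eval_eq_sum_range, hdeg, Finset.sum_range_succ] at h0
    have hlead : P.coeff (k + 1) = 1 := by rw [← hdeg]; exact hmon
    rw [hlead, one_mul] at h0
    have h1 : ∑ i : Fin (k + 1), (-P.coeff i) • V a i = - ∑ i ∈ range (k + 1), P.coeff i * y a ^ i := by
      rw [← Fin.sum_univ_eq_sum_range (fun i => P.coeff i * y a ^ i), ← Finset.sum_neg_distrib]
      refine Finset.sum_congr rfl fun i _ => ?_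
      rw [hV]
      simp
    rw [h1]; linarith
  have h2 : (Matrix.of fun a j : Fin (k + 1) => y a ^ (sft k 1 j)) =
      V.updateCol (Fin.last k) (fun a => ∑ i : Fin (k + 1), (-P.coeff i) • V a i) := by
    ext a j
    rw [Matrix.updateCol_apply]
    simp only [Matrix.of_apply]
    split_ifs with h
    · rw [← hrel, h]
      simp [sft]
    · have hj : (j : ℕ) < k := by
        have := j.2
        have h3 : (j : ℕ) ≠ k := fun h4 => h (Fin.ext h4)
        omega
      simp [sft, hj, hV]
  unfold gv
  rw [h2, Matrix.det_updateCol_sum]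
  simp [hk, hV]

/-- The weighted sums of squared Vandermonde determinants. -/
noncomputable def SV (c : ℕ) {M : ℕ} (ω x : Fin M → ℝ) (j : ℕ) : ℝ :=
  ∑ I ∈ univ.filter (fun I : Fin c → Fin M => StrictMono I),
    (∏ a, ω (I a)) * (∑ a, x (I a)) ^ j * gv (fun i => i) (x ∘ I) ^ 2

lemma ld_eq_SV (c : ℕ) {M : ℕ} (ω x : Fin M → ℝ) : ld (mom ω x) c = SV c ω x 0 := by
  unfold ld SV
  have := gram (c := c) ω x (fun i => i) (fun i => i)
  rw [this]
  refine Finset.sum_congr rfl fun I _ => ?_
  ring

/-- The Toda equation. -/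
theorem toda (k : ℕ) {M : ℕ} (ω x : Fin M → ℝ) :
    SV (k + 1) ω x 0 * SV (k + 1) ω x 2 - SV (k + 1) ω x 1 ^ 2 = SV (k + 2) ω x 0 * SV k ω x 0 := by
  have hj := jacobi (mom ω x) k
  have hbd : ∀ p q, p ≤ 1 → q ≤ 1 → bd (mom ω x) k p q = SV (k + 1) ω x (p + q) := by
    intro p q hp hq
    have hs : ∀ p, p ≤ 1 → ∀ I : Fin (k + 1) → Fin M,
        gv (sft k p) (x ∘ I) = (∑ a, x (I a)) ^ p * gv (fun i => i) (x ∘ I) := by
      intro p hp I
      interval_cases p
      · rw [pow_zero, one_mul]
        unfold gv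
        congr 1
        ext a j
        have : sft k 0 j = j := by
          unfold sft
          split_ifs with h
          · rfl
          · have := j.2; omega
        simp [this]
      · rw [pow_one]; exact vand_shift _
    unfold bd
    rw [gram]
    unfold SV
    refine Finset.sum_congr rfl fun I _ => ?_
    rw [hs p hp, hs q hq, pow_add]; ring
  rw [hbd 0 0 (by norm_num) (by norm_num), hbd 1 1 le_rfl le_rfl, hbd 0 1 (by norm_num) le_rfl,
    hbd 1 0 le_rfl (by norm_num), ld_eq_SV, ld_eq_SV] at hj
  rw [hj]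
  ring

end Pool.Agent.H390.Hook
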