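import Mathlib
import Pool.Agent.H390.Hook.HookLemma
import Pool.Agent.H390.Hook.Toda

/-!
The recursion for the sums over partitions of products over the hook lengths.
-/

set_option autoImplicit false

open Finset Matrix

namespace Pool.Agent.H390.Hook

open Pool.Agent.R178.HC Pool.Agent.R153.Sp

/-- the weight of a hook of length `h` -/
noncomputable def pw (ε : ℝ) (h : ℕ) : ℝ := ε ^ h / (h : ℝ) ^ 2

/-- the weight of a beta number -/
noncomputable def ww (ε : ℝ) (m : ℕ) : ℝ := ∏ h ∈ Icc 1 m, pw ε h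

/-- the coefficient -/
noncomputable def uu (ε : ℝ) (N : ℕ) : ℝ := ∑ μ ∈ diagrams N, ∏ x ∈ μ.cells, pw ε (hookLen μ x)

/-- the summand -/
noncomputable def gN (ε : ℝ) (c : ℕ) (m : Fin c → ℕ) : ℝ :=
  (∏ a, ww ε (m a)) * gv (fun i => i) (fun a => (m a : ℝ)) ^ 2

/-- sum of the integers below `c` -/
def tri (c : ℕ) : ℕ := ∑ i ∈ range c, i

lemma pair_prod (c : ℕ) (g : ℕ → ℝ) :
    ∏ a ∈ range c, ∏ b ∈ range a, (g a * g b) = (∏ a ∈ range c, g a) ^ (c - 1) := by
  induction c with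
  | zero => simp
  | succ n ih =>
    rw [prod_range_succ, ih, prod_range_succ, prod_mul_distrib, prod_const, card_range]
    rcases n with _ | n
    · simp
    · rw [Nat.add_sub_cancel, Nat.add_sub_cancel, mul_pow]
      ring

lemma gv_sq_eq {c : ℕ} {μ : YoungDiagram} :
    gv (fun i => i) (fun a : Fin c => (mv c μ a : ℝ)) ^ 2 =
      ∏ a ∈ range c, ∏ b ∈ range a, ((mN c μ a - mN c μ b : ℕ) : ℝ) ^ 2 := by
  have h1 : gv (fun i => i) (fun a : Fin c => (mv c μ a : ℝ)) =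
      ∏ i : Fin c, ∏ j ∈ Finset.Ioi i, ((mv c μ j : ℝ) - (mv c μ i : ℝ)) := by
    unfold gv
    rw [← Matrix.det_vandermonde]
    rfl
  have h2 := prod_fin_range c (fun i j => ((mN c μ j : ℝ) - (mN c μ i : ℝ)))
  have h3 : ∏ i : Fin c, ∏ j ∈ Finset.Ioi i, ((mv c μ j : ℝ) - (mv c μ i : ℝ)) =
      ∏ a ∈ range c, ∏ b ∈ range a, ((mN c μ a : ℝ) - (mN c μ b : ℝ)) := h2
  rw [h1, h3, ← prod_pow]
  refine prod_congr rfl fun a _ => ?_
  rw [← prod_pow]
  refine prod_congr rfl fun b hb => ?_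
  rw [mem_range] at hb
  rw [Nat.cast_sub (mN_lt hb).le]

lemma gN_mv {ε : ℝ} (hε : ε ^ 2 = 1) {c : ℕ} {μ : YoungDiagram} (hc : μ.colLen 0 ≤ c) :
    gN ε c (mv c μ) = (∏ x ∈ μ.cells, pw ε (hookLen μ x)) * ε ^ ((c - 1) * (μ.card + tri c)) := by
  have h := hook_prod hc (pw ε)
  have h1 : ∏ a : Fin c, ww ε (mv c μ a) = ∏ a ∈ range c, ∏ h ∈ Icc 1 (mN c μ a), pw ε h := by
    rw [← Fin.prod_univ_eq_prod_range (fun a => ∏ h ∈ Icc 1 (mN c μ a), pw ε h)]
    rfl
  unfold gN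
  rw [gv_sq_eq, h1, ← h, mul_assoc, ← prod_mul_distrib]
  congr 1
  have hεε : ∀ a b : ℕ, b ≤ a → ε ^ (a - b) = ε ^ a * ε ^ b := by
    intro a b hab
    have : ε ^ a = ε ^ (a - b) * ε ^ b := by rw [← pow_add]; congr 1; omega
    rw [this, mul_assoc, ← pow_add, ← two_mul, pow_mul, hε, one_pow, mul_one]
  have h2 : ∏ a ∈ range c, ((∏ b ∈ range a, pw ε (mN c μ a - mN c μ b)) *
      ∏ b ∈ range a, ((mN c μ a - mN c μ b : ℕ) : ℝ) ^ 2) =
      ∏ a ∈ range c, ∏ b ∈ range a, (ε ^ (mN c μ a) * ε ^ (mN c μ b)) := by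
    refine prod_congr rfl fun a _ => ?_
    rw [← prod_mul_distrib]
    refine prod_congr rfl fun b hb => ?_
    rw [mem_range] at hb
    have h3 := mN_lt (c := c) (μ := μ) hb
    have h4 : ((mN c μ a - mN c μ b : ℕ) : ℝ) ≠ 0 := by
      rw [Nat.cast_ne_zero]; omega
    unfold pw
    rw [div_mul_cancel₀ _ (pow_ne_zero 2 h4)]
    exact hεε _ _ h3.le
  rw [h2, pair_prod c (fun a => ε ^ (mN c μ a)), prod_pow_eq_pow_sum, ← pow_mul, mul_comm]
  congr 2
  rw [← Fin.sum_univ_eq_sum_range]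
  exact sum_mv hc

lemma rowLen_le_card (μ : YoungDiagram) (i : ℕ) : μ.rowLen i ≤ μ.card := by
  rw [YoungDiagram.rowLen_eq_card]
  exact card_le_card (filter_subset _ _)

lemma colLen_le_card (μ : YoungDiagram) (i : ℕ) : μ.colLen i ≤ μ.card := by
  rw [YoungDiagram.colLen_eq_card]
  exact card_le_card (filter_subset _ _)

/-- the strictly increasing tuples with sum `s` -/
def SI (c M s : ℕ) : Finset (Fin c → Fin M) :=
  (univ.filter (fun I : Fin c → Fin M => StrictMono I)).filter (fun I => ∑ a, (I a : ℕ) = s)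

/-- coefficients of the finite sums -/
noncomputable def zz (ε : ℝ) (c M s : ℕ) : ℝ := ∑ I ∈ SI c M s, gN ε c (fun a => (I a : ℕ))

lemma zz_of_lt {ε : ℝ} {c M s : ℕ} (h : s < tri c) : zz ε c M s = 0 := by
  unfold zz
  apply sum_eq_zero
  intro I hI
  exfalso
  unfold SI at hI
  rw [mem_filter, mem_filter] at hI
  obtain ⟨⟨_, h1⟩, h2⟩ := hI
  have h3 : StrictMono (fun a => ((I a : Fin M) : ℕ)) := fun a b hab => h1 hab
  have h4 : tri c ≤ ∑ a, (I a : ℕ) := by
    unfold tri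
    rw [← Fin.sum_univ_eq_sum_range (fun i => i)]
    exact sum_le_sum fun a _ => strictMono_ge h3 a
  omega

lemma zz_eq {ε : ℝ} (hε : ε ^ 2 = 1) {c M n : ℕ} (hn : n ≤ c) (hM : n + c ≤ M) :
    zz ε c M (tri c + n) = ε ^ ((c - 1) * (n + tri c)) * uu ε n := by
  have hcard : ∀ μ ∈ diagrams n, μ.card = n := fun μ h => mem_diagrams.1 h
  have hcol : ∀ μ ∈ diagrams n, μ.colLen 0 ≤ c := fun μ h =>
    (colLen_le_card μ 0).trans (by rw [hcard μ h]; exact hn)
  have hlt : ∀ μ ∈ diagrams n, ∀ a : Fin c, mv c μ a < M := by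
    intro μ h a
    have h1 := rowLen_le_card μ (c - 1 - a)
    rw [hcard μ h] at h1
    have h2 := a.2
    unfold mv
    omega
  have h1 : ∑ μ ∈ diagrams n, gN ε c (mv c μ) = zz ε c M (tri c + n) := by
    unfold zz
    refine Finset.sum_bij (fun μ h => fun a => (⟨mv c μ a, hlt μ h a⟩ : Fin M)) ?_ ?_ ?_ ?_
    · intro μ h
      unfold SI
      rw [mem_filter, mem_filter]
      refine ⟨⟨mem_univ _, ?_⟩, ?_⟩
      · intro a b hab
        exact mv_strictMono c μ hab
      · simp only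
        rw [sum_mv (hcol μ h), hcard μ h]
        unfold tri
        omega
    · intro μ hμ ν hν h
      apply mv_inj (hcol μ hμ) (hcol ν hν)
      funext a
      have := congrFun h a
      simpa using this
    · intro I hI
      unfold SI at hI
      rw [mem_filter, mem_filter] at hI
      obtain ⟨⟨_, h2⟩, h3⟩ := hI
      have h4 : StrictMono (fun a => ((I a : Fin M) : ℕ)) := fun a b hab => h2 hab
      have h5 : (ofm (fun a => ((I a : Fin M) : ℕ)) h4).card = n := by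
        have := sum_mv (colLen_ofm (m := fun a => ((I a : Fin M) : ℕ)) (hm := h4))
        rw [mv_ofm, h3] at this
        unfold tri at this
        omega
      refine ⟨ofm (fun a => ((I a : Fin M) : ℕ)) h4, mem_diagrams.2 h5, ?_⟩
      funext a
      apply Fin.ext
      simp only
      rw [mv_ofm]
    · intro μ h
      rfl
  rw [← h1]
  unfold uu
  rw [mul_sum]
  refine sum_congr rfl fun μ h => ?_
  rw [gN_mv hε (hcol μ h), hcard μ h, mul_comm]

end Pool.Agent.H390.Hook
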