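import Mathlib
import Pool.Agent.H390.Hook.Coef

/-!
The recursion for the sums over partitions of products over the hook lengths.
-/

set_option autoImplicit false

open Finset Matrix

namespace Pool.Agent.H390.Hook

open Pool.Agent.R178.HC Pool.Agent.R153.Sp

/-- The generating polynomial. -/
noncomputable def QQ (ε : ℝ) (c M j : ℕ) : Polynomial ℝ :=
  ∑ I ∈ univ.filter (fun I : Fin c → Fin M => StrictMono I),
    Polynomial.monomial (∑ a, (I a : ℕ))
      (gN ε c (fun a => (I a : ℕ)) * ((∑ a, (I a : ℕ) : ℕ) : ℝ) ^ j)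

lemma QQ_eval (ε : ℝ) (c M j : ℕ) (t : ℝ) :
    (QQ ε c M j).eval t = SV c (fun m : Fin M => ww ε m * t ^ (m : ℕ)) (fun m => ((m : ℕ) : ℝ)) j := by
  unfold QQ SV
  rw [Polynomial.eval_finsetSum]
  refine sum_congr rfl fun I _ => ?_
  rw [Polynomial.eval_monomial, prod_mul_distrib, prod_pow_eq_pow_sum]
  unfold gN
  have h1 : ((fun m : Fin M => ((m : ℕ) : ℝ)) ∘ I) = fun a => ((I a : ℕ) : ℝ) := rfl
  rw [h1]
  push_cast
  ring

lemma QQ_coeff (ε : ℝ) (c M j s : ℕ) : (QQ ε c M j).coeff s = zz ε c M s * (s : ℝ) ^ j := by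
  unfold QQ zz SI
  rw [Polynomial.finsetSum_coeff, sum_mul, sum_filter (s := univ.filter _) (p := fun I => ∑ a, _ = s)]
  refine sum_congr rfl fun I _ => ?_
  rw [Polynomial.coeff_monomial]
  split_ifs with h
  · rw [h]
  · rfl

lemma QQ_toda (ε : ℝ) (k M : ℕ) :
    QQ ε (k + 1) M 0 * QQ ε (k + 1) M 2 - QQ ε (k + 1) M 1 ^ 2 = QQ ε (k + 2) M 0 * QQ ε k M 0 := by
  apply Polynomial.funext
  intro t
  simp only [Polynomial.eval_sub, Polynomial.eval_mul, Polynomial.eval_pow, QQ_eval]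
  exact toda k _ _

lemma antidiag_shift (f g : ℕ → ℝ) (A B n : ℕ) (hf : ∀ a < A, f a = 0) (hg : ∀ b < B, g b = 0) :
    ∑ x ∈ antidiagonal (A + B + n), f x.1 * g x.2 =
      ∑ x ∈ antidiagonal n, f (A + x.1) * g (B + x.2) := by
  classical
  have hinj : Set.InjOn (fun x : ℕ × ℕ => (A + x.1, B + x.2)) (antidiagonal n : Set (ℕ × ℕ)) := by
    intro x _ y _ h
    have h1 := (Prod.mk.inj h).1
    have h2 := (Prod.mk.inj h).2
    exact Prod.ext (by omega) (by omega)
  have h1 : ∑ x ∈ (antidiagonal n).image (fun x : ℕ × ℕ => (A + x.1, B + x.2)), f x.1 * g x.2 =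
      ∑ x ∈ antidiagonal n, f (A + x.1) * g (B + x.2) := by
    rw [sum_image hinj]
  rw [← h1]
  symm
  apply sum_subset
  · intro x hx
    rw [mem_image] at hx
    obtain ⟨y, hy, rfl⟩ := hx
    rw [HasAntidiagonal.mem_antidiagonal] at hy ⊢
    simp only
    omega
  · intro x hx hx'
    rw [HasAntidiagonal.mem_antidiagonal] at hx
    by_cases h2 : x.1 < A
    · rw [hf _ h2, zero_mul]
    by_cases h3 : x.2 < B
    · rw [hg _ h3, mul_zero]
    exfalso
    apply hx'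
    rw [mem_image]
    refine ⟨(x.1 - A, x.2 - B), ?_, ?_⟩
    · rw [HasAntidiagonal.mem_antidiagonal]; simp only; omega
    · apply Prod.ext
      · simp only; omega
      · simp only; omega

lemma tri_succ (c : ℕ) : tri (c + 1) = tri c + c := by
  unfold tri; rw [sum_range_succ]

/-- The recursion. -/
theorem uu_rec {ε : ℝ} (hε : ε ^ 2 = 1) (N : ℕ) :
    ∑ x ∈ antidiagonal (N + 1), uu ε x.1 * uu ε x.2 * ((x.2 : ℝ) ^ 2 - (x.1 : ℝ) * (x.2 : ℝ)) =
      ε ^ (N + 1) * ∑ x ∈ antidiagonal N, uu ε x.1 * uu ε x.2 := by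
  set k := 2 * N with hk
  set M := k + N + 5 with hM
  set A := tri (k + 1) with hA
  have ht1 : tri (k + 1) = tri k + k := tri_succ k
  have ht2 : tri (k + 2) = tri k + k + (k + 1) := by rw [tri_succ (k + 1), tri_succ k]
  have hpow : ∀ j, ε ^ (k * j) = 1 := by
    intro j
    rw [hk, mul_assoc, pow_mul, hε, one_pow]
  have hu : ∀ i, i ≤ N + 1 → zz ε (k + 1) M (A + i) = uu ε i := by
    intro i hi
    rw [hA]
    rcases Nat.lt_or_ge (k + 1) i with h | h
    · -- only if `N = 0`: `i ≤ 1 ≤ k + 1`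
      omega
    · rw [zz_eq hε h (by omega), Nat.add_sub_cancel, hpow, one_mul]
  have h := congrArg (fun P : Polynomial ℝ => P.coeff (A + A + (N + 1))) (QQ_toda ε k M)
  simp only [Polynomial.coeff_sub, pow_two, Polynomial.coeff_mul, QQ_coeff, pow_zero, mul_one,
    pow_one] at h
  rw [antidiag_shift (fun a => zz ε (k + 1) M a) (fun b => zz ε (k + 1) M b * ((b : ℝ) * b)) A A
      (N + 1) (fun a ha => zz_of_lt ha) (fun b hb => by rw [zz_of_lt hb, zero_mul]),
    antidiag_shift (fun a => zz ε (k + 1) M a * (a : ℝ)) (fun b => zz ε (k + 1) M b * (b : ℝ)) A A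
      (N + 1) (fun a ha => by rw [zz_of_lt ha, zero_mul])
      (fun b hb => by rw [zz_of_lt hb, zero_mul])] at h
  have hidx : A + A + (N + 1) = tri (k + 2) + tri k + N := by
    rw [hA, ht1, ht2]; ring
  rw [hidx, antidiag_shift (fun a => zz ε (k + 2) M a) (fun b => zz ε k M b) (tri (k + 2)) (tri k) N
    (fun a ha => zz_of_lt ha) (fun b hb => zz_of_lt hb)] at h
  have hR : ∑ x ∈ antidiagonal N, zz ε (k + 2) M (tri (k + 2) + x.1) * zz ε k M (tri k + x.2) =
      ε ^ (N + 1) * ∑ x ∈ antidiagonal N, uu ε x.1 * uu ε x.2 := by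
    rw [mul_sum]
    refine sum_congr rfl fun x hx => ?_
    rw [HasAntidiagonal.mem_antidiagonal] at hx
    rw [zz_eq hε (by omega) (by omega), zz_eq hε (by omega) (by omega)]
    have e1 : ε ^ ((k + 2 - 1) * (x.1 + tri (k + 2))) * ε ^ ((k - 1) * (x.2 + tri k)) =
        ε ^ (N + 1) := by
      rcases Nat.eq_zero_or_pos N with h0 | h0
      · have hk0 : k = 0 := by omega
        have hx1 : x.1 = 0 := by omega
        have hx2 : x.2 = 0 := by omega
        rw [hk0, hx1, hx2, h0]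
        simp [tri, sum_range_succ]
      · have e2 : (k + 2 - 1) * (x.1 + tri (k + 2)) = k * (x.1 + tri (k + 2)) + (x.1 + tri (k + 2)) := by
          have : k + 2 - 1 = k + 1 := rfl
          rw [this]; ring
        have e3 : (k - 1) * (x.2 + tri k) + (x.2 + tri k) = k * (x.2 + tri k) := by
          obtain ⟨m, hm⟩ : ∃ m, k = m + 1 := ⟨k - 1, by omega⟩
          rw [hm, Nat.add_sub_cancel]; ring
        have e4 : ε ^ ((k - 1) * (x.2 + tri k)) = ε ^ (x.2 + tri k) := by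
          have h5 : ε ^ ((k - 1) * (x.2 + tri k)) * ε ^ (x.2 + tri k) = 1 := by
            rw [← pow_add, e3, hpow]
          have h6 : ε ^ (x.2 + tri k) * ε ^ (x.2 + tri k) = 1 := by
            rw [← pow_add, ← two_mul, pow_mul, hε, one_pow]
          have h7 : ε ^ (x.2 + tri k) ≠ 0 := by
            intro h8; rw [h8] at h6; norm_num at h6
          exact mul_right_cancel₀ h7 (h5.trans h6.symm)
        rw [e2, pow_add, hpow, one_mul, e4, ← pow_add]
        have e5 : x.1 + tri (k + 2) + (x.2 + tri k) = 2 * (tri k + k) + (N + 1) := by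
          rw [ht2]; omega
        rw [e5, pow_add, pow_mul, hε, one_pow, one_mul]
    calc ε ^ ((k + 2 - 1) * (x.1 + tri (k + 2))) * uu ε x.1 *
          (ε ^ ((k - 1) * (x.2 + tri k)) * uu ε x.2)
        = (ε ^ ((k + 2 - 1) * (x.1 + tri (k + 2))) * ε ^ ((k - 1) * (x.2 + tri k))) *
          (uu ε x.1 * uu ε x.2) := by ring
      _ = ε ^ (N + 1) * (uu ε x.1 * uu ε x.2) := by rw [e1]
  rw [hR] at h
  rw [← h, ← sum_sub_distrib]
  have hsw : ∑ x ∈ antidiagonal (N + 1), uu ε x.1 * uu ε x.2 * ((x.2 : ℝ) - (x.1 : ℝ)) = 0 := by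
    have h1 : ∑ x ∈ antidiagonal (N + 1), uu ε x.1 * uu ε x.2 * ((x.2 : ℝ) - (x.1 : ℝ)) =
        ∑ x ∈ antidiagonal (N + 1), uu ε x.2 * uu ε x.1 * ((x.1 : ℝ) - (x.2 : ℝ)) := by
      rw [← Finset.Nat.sum_antidiagonal_swap]
      rfl
    have h2 : ∑ x ∈ antidiagonal (N + 1), uu ε x.2 * uu ε x.1 * ((x.1 : ℝ) - (x.2 : ℝ)) =
        - ∑ x ∈ antidiagonal (N + 1), uu ε x.1 * uu ε x.2 * ((x.2 : ℝ) - (x.1 : ℝ)) := by
      rw [← sum_neg_distrib]
      refine sum_congr rfl fun x _ => ?_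
      ring
    linarith
  have hfin : ∑ x ∈ antidiagonal (N + 1), (zz ε (k + 1) M (A + x.1) *
      (zz ε (k + 1) M (A + x.2) * (((A + x.2 : ℕ) : ℝ) * ((A + x.2 : ℕ) : ℝ))) -
      zz ε (k + 1) M (A + x.1) * ((A + x.1 : ℕ) : ℝ) *
      (zz ε (k + 1) M (A + x.2) * ((A + x.2 : ℕ) : ℝ))) =
      ∑ x ∈ antidiagonal (N + 1), uu ε x.1 * uu ε x.2 * ((x.2 : ℝ) ^ 2 - (x.1 : ℝ) * (x.2 : ℝ)) +
      (A : ℝ) * ∑ x ∈ antidiagonal (N + 1), uu ε x.1 * uu ε x.2 * ((x.2 : ℝ) - (x.1 : ℝ)) := by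
    rw [mul_sum, ← sum_add_distrib]
    refine sum_congr rfl fun x hx => ?_
    rw [HasAntidiagonal.mem_antidiagonal] at hx
    rw [hu _ (by omega), hu _ (by omega)]
    push_cast
    ring
  rw [hfin, hsw, mul_zero, add_zero]

end Pool.Agent.H390.Hook
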