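import Mathlib
import Pool.Agent.H390.Hook.Rec

/-!
Bounds on the coefficients; summability over Young diagrams.
-/

set_option autoImplicit false

open Finset

namespace Pool.Agent.H390.Hook

open Pool.Agent.R153.Sp

lemma diagrams_zero : diagrams 0 = {⊥} := by
  ext μ
  rw [mem_diagrams, Finset.mem_singleton]
  constructor
  · intro h
    apply YoungDiagram.ext
    rw [YoungDiagram.cells_bot]
    exact Finset.card_eq_zero.mp h
  · rintro rfl
    simp

lemma uu_zero (ε : ℝ) : uu ε 0 = 1 := by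
  unfold uu
  rw [diagrams_zero]
  simp

lemma uu_one {ε : ℝ} (hε : ε ^ 2 = 1) : uu ε 1 = ε := by
  have h := uu_rec hε 0
  simp [Finset.Nat.antidiagonal_succ, uu_zero] at h
  exact h

lemma uu_two {ε : ℝ} (hε : ε ^ 2 = 1) : uu ε 2 = ε / 2 := by
  have h := uu_rec hε 1
  simp [Finset.Nat.antidiagonal_succ, uu_zero, uu_one hε] at h
  rw [hε] at h
  linarith

lemma fact_rec (N : ℕ) :
    ∑ x ∈ antidiagonal (N + 1), (1 / (x.1.factorial : ℝ)) * (1 / (x.2.factorial : ℝ)) *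
      ((x.2 : ℝ) ^ 2 - (x.1 : ℝ) * (x.2 : ℝ)) =
      ∑ x ∈ antidiagonal N, (1 / (x.1.factorial : ℝ)) * (1 / (x.2.factorial : ℝ)) := by
  rw [Finset.Nat.sum_antidiagonal_succ']
  have h1 : ∀ x : ℕ × ℕ, (1 / (x.1.factorial : ℝ)) * (1 / ((x.2 + 1).factorial : ℝ)) *
      (((x.2 + 1 : ℕ) : ℝ) ^ 2 - (x.1 : ℝ) * ((x.2 + 1 : ℕ) : ℝ)) =
      (1 / (x.1.factorial : ℝ)) * (1 / (x.2.factorial : ℝ)) +
      (1 / (x.1.factorial : ℝ)) * (1 / (x.2.factorial : ℝ)) * ((x.2 : ℝ) - x.1) := by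
    intro x
    rw [Nat.factorial_succ]
    push_cast
    have h2 : (x.1.factorial : ℝ) ≠ 0 := by positivity
    have h3 : (x.2.factorial : ℝ) ≠ 0 := by positivity
    have h4 : ((x.2 : ℝ) + 1) ≠ 0 := by positivity
    field_simp
    ring
  simp only [h1]
  rw [sum_add_distrib]
  have hsw : ∑ x ∈ antidiagonal N,
      (1 / (x.1.factorial : ℝ)) * (1 / (x.2.factorial : ℝ)) * ((x.2 : ℝ) - (x.1 : ℝ)) = 0 := by
    have h1 : ∑ x ∈ antidiagonal N,
        (1 / (x.1.factorial : ℝ)) * (1 / (x.2.factorial : ℝ)) * ((x.2 : ℝ) - (x.1 : ℝ)) =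
        ∑ x ∈ antidiagonal N,
        (1 / (x.2.factorial : ℝ)) * (1 / (x.1.factorial : ℝ)) * ((x.1 : ℝ) - (x.2 : ℝ)) := by
      rw [← Finset.Nat.sum_antidiagonal_swap]
      rfl
    have h2 : ∑ x ∈ antidiagonal N,
        (1 / (x.2.factorial : ℝ)) * (1 / (x.1.factorial : ℝ)) * ((x.1 : ℝ) - (x.2 : ℝ)) =
        - ∑ x ∈ antidiagonal N,
        (1 / (x.1.factorial : ℝ)) * (1 / (x.2.factorial : ℝ)) * ((x.2 : ℝ) - (x.1 : ℝ)) := by
      rw [← sum_neg_distrib]
      refine sum_congr rfl fun x _ => ?_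
      ring
    linarith
  rw [hsw]
  simp

/-- The sum of the inverse squares of the hook products is `1 / N!`. -/
theorem uu_one_eq (N : ℕ) : uu 1 N = 1 / (N.factorial : ℝ) := by
  induction N using Nat.strong_induction_on with
  | _ N ih =>
    rcases N with _ | N
    · simp [uu_zero]
    · have h := uu_rec (ε := 1) (by norm_num) N
      rw [one_pow, one_mul] at h
      have h2 := fact_rec N
      have hR : ∑ x ∈ antidiagonal N, uu 1 x.1 * uu 1 x.2 =
          ∑ x ∈ antidiagonal N, (1 / (x.1.factorial : ℝ)) * (1 / (x.2.factorial : ℝ)) := by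
        refine sum_congr rfl fun x hx => ?_
        rw [HasAntidiagonal.mem_antidiagonal] at hx
        rw [ih _ (by omega), ih _ (by omega)]
      rw [hR, ← h2, Finset.Nat.sum_antidiagonal_succ, Finset.Nat.sum_antidiagonal_succ] at h
      have hT : ∑ x ∈ antidiagonal N, uu 1 (x.1 + 1) * uu 1 x.2 *
          ((x.2 : ℝ) ^ 2 - ((x.1 + 1 : ℕ) : ℝ) * (x.2 : ℝ)) =
          ∑ x ∈ antidiagonal N, (1 / ((x.1 + 1).factorial : ℝ)) * (1 / (x.2.factorial : ℝ)) *
          ((x.2 : ℝ) ^ 2 - ((x.1 + 1 : ℕ) : ℝ) * (x.2 : ℝ)) := by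
        refine sum_congr rfl fun x hx => ?_
        rw [HasAntidiagonal.mem_antidiagonal] at hx
        rcases Nat.eq_zero_or_pos x.2 with h0 | h0
        · rw [h0]; simp
        · rw [ih _ (by omega), ih _ (by omega)]
      rw [hT] at h
      have h3 := add_right_cancel h
      rw [uu_zero] at h3
      simp only [Nat.cast_zero, zero_mul, sub_zero, Nat.factorial_zero, Nat.cast_one, div_one,
        one_mul] at h3
      have h4 : (((N + 1 : ℕ) : ℝ)) ^ 2 ≠ 0 := by positivity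
      exact mul_right_cancel₀ h4 h3

lemma abs_pw {ε : ℝ} (hε : ε ^ 2 = 1) (h : ℕ) : |pw ε h| = pw 1 h := by
  have h1 : |ε| = 1 := by
    have := sq_abs ε
    rw [hε] at this
    have h2 : (0 : ℝ) ≤ |ε| := abs_nonneg ε
    nlinarith
  unfold pw
  rw [abs_div, abs_pow, h1, one_pow, abs_of_nonneg (by positivity)]

lemma uu_abs {ε : ℝ} (hε : ε ^ 2 = 1) (N : ℕ) : |uu ε N| ≤ 1 / (N.factorial : ℝ) := by
  rw [← uu_one_eq]
  unfold uu
  refine (abs_sum_le_sum_abs _ _).trans ?_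
  refine sum_le_sum fun μ _ => ?_
  rw [abs_prod]
  exact (prod_congr rfl fun x _ => abs_pw hε _).le

/-- the summand of the series over all Young diagrams -/
noncomputable def term (ε y : ℝ) (μ : YoungDiagram) : ℝ :=
  ∏ x ∈ μ.cells, (pw ε (hookLen μ x) * y)

lemma term_eq (ε y : ℝ) (μ : YoungDiagram) :
    term ε y μ = (∏ x ∈ μ.cells, pw ε (hookLen μ x)) * y ^ μ.card := by
  unfold term
  rw [prod_mul_distrib, prod_const]

lemma sum_term (ε y : ℝ) (N : ℕ) : ∑ μ ∈ diagrams N, term ε y μ = uu ε N * y ^ N := by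
  unfold uu
  rw [sum_mul]
  refine sum_congr rfl fun μ h => ?_
  rw [term_eq, mem_diagrams.1 h]

open Classical in
/-- the diagrams with fewer than `K` cells -/
noncomputable def DD (K : ℕ) : Finset YoungDiagram := (range K).biUnion diagrams

lemma mem_DD {K : ℕ} {μ : YoungDiagram} : μ ∈ DD K ↔ μ.card < K := by
  unfold DD
  simp [mem_biUnion, mem_diagrams]

lemma sum_DD (ε y : ℝ) (K : ℕ) :
    ∑ μ ∈ DD K, term ε y μ = ∑ N ∈ range K, uu ε N * y ^ N := by
  classical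
  unfold DD
  rw [sum_biUnion]
  · exact sum_congr rfl fun N _ => sum_term ε y N
  · intro i _ j _ hij
    rw [Function.onFun, Finset.disjoint_left]
    intro μ h1 h2
    rw [mem_diagrams] at h1 h2
    exact hij (h1.symm.trans h2)

lemma tendsto_DD : Filter.Tendsto DD Filter.atTop Filter.atTop := by
  apply Filter.tendsto_atTop_finset_of_monotone
  · intro a b hab μ h
    exact mem_DD.2 ((mem_DD.1 h).trans_le hab)
  · intro μ
    exact ⟨μ.card + 1, mem_DD.2 (Nat.lt_succ_self _)⟩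

lemma summable_term {ε : ℝ} (hε : ε ^ 2 = 1) (y : ℝ) : Summable (term ε y) := by
  rw [← summable_norm_iff]
  have h0 : ∀ μ, ‖term ε y μ‖ = term 1 |y| μ := by
    intro μ
    rw [Real.norm_eq_abs, term_eq, term_eq, abs_mul, abs_prod, abs_pow]
    congr 1
    exact prod_congr rfl fun x _ => abs_pw hε _
  apply summable_of_sum_le (c := Real.exp |y|) (fun μ => norm_nonneg _)
  intro s
  obtain ⟨K, hK⟩ : ∃ K, s ⊆ DD K := by
    refine ⟨s.sup (fun μ => μ.card) + 1, fun μ hμ => mem_DD.2 ?_⟩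
    exact Nat.lt_succ_of_le (Finset.le_sup (f := fun μ : YoungDiagram => μ.card) hμ)
  calc ∑ μ ∈ s, ‖term ε y μ‖ ≤ ∑ μ ∈ DD K, ‖term ε y μ‖ :=
        sum_le_sum_of_subset_of_nonneg hK fun _ _ _ => norm_nonneg _
    _ = ∑ μ ∈ DD K, term 1 |y| μ := sum_congr rfl fun μ _ => h0 μ
    _ = ∑ N ∈ range K, uu 1 N * |y| ^ N := sum_DD _ _ _
    _ = ∑ N ∈ range K, |y| ^ N / (N.factorial : ℝ) := by
        refine sum_congr rfl fun N _ => ?_
        rw [uu_one_eq]; ring
    _ ≤ Real.exp |y| := Real.sum_le_exp_of_nonneg (abs_nonneg y) K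

/-- the power series -/
noncomputable def FF (ε y : ℝ) : ℝ := ∑' N : ℕ, uu ε N * y ^ N

lemma summable_pow_fact (K y : ℝ) (c : ℕ → ℝ) (hc : ∀ n, |c n| ≤ K ^ n / (n.factorial : ℝ)) :
    Summable (fun n => ‖c n * y ^ n‖) := by
  apply Summable.of_nonneg_of_le (fun n => norm_nonneg _) _ (Real.summable_pow_div_factorial (K * |y|))
  intro n
  rw [Real.norm_eq_abs, abs_mul, abs_pow]
  calc |c n| * |y| ^ n ≤ K ^ n / (n.factorial : ℝ) * |y| ^ n :=
        mul_le_mul_of_nonneg_right (hc n) (by positivity)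
    _ = (K * |y|) ^ n / (n.factorial : ℝ) := by rw [mul_pow]; ring

lemma uu_abs' {ε : ℝ} (hε : ε ^ 2 = 1) (N : ℕ) : |uu ε N| ≤ 1 ^ N / (N.factorial : ℝ) := by
  rw [one_pow]; exact uu_abs hε N

theorem tsum_term {ε : ℝ} (hε : ε ^ 2 = 1) (y : ℝ) : ∑' μ, term ε y μ = FF ε y := by
  have h1 := (summable_term hε y).hasSum.comp tendsto_DD
  have h2 : Summable (fun N : ℕ => uu ε N * y ^ N) :=
    (summable_pow_fact 1 y _ (uu_abs' hε)).of_norm
  have h3 := h2.hasSum.tendsto_sum_nat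
  refine tendsto_nhds_unique h1 ?_
  refine h3.congr ?_
  intro K
  exact (sum_DD ε y K).symm

end Pool.Agent.H390.Hook
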