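import Mathlib
import Pool.Agent.H390.Hook.Bound

/-!
The entire function `FF ε` and its differential equation.
-/

set_option autoImplicit false

open Finset

namespace Pool.Agent.H390.Hook

/-- term by term derivative of an everywhere convergent series -/
lemma hasDerivAt_series (K : ℝ) (hK : 0 ≤ K) (c : ℕ → ℝ) (hc : ∀ n, |c n| ≤ K ^ n / (n.factorial : ℝ))
    (y : ℝ) :
    HasDerivAt (fun z => ∑' n, c n * z ^ n) (∑' n, c n * ((n : ℝ) * y ^ (n - 1))) y := by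
  set ρ : ℝ := |y| + 1 with hρ
  have hρ0 : 0 < ρ := by positivity
  have hu : Summable (fun n : ℕ => K ^ n / (n.factorial : ℝ) * ((n : ℝ) * ρ ^ (n - 1))) := by
    rw [← summable_nat_add_iff 1]
    have h1 : ∀ n : ℕ, K ^ (n + 1) / ((n + 1).factorial : ℝ) * (((n + 1 : ℕ) : ℝ) * ρ ^ (n + 1 - 1)) =
        K * ((K * ρ) ^ n / (n.factorial : ℝ)) := by
      intro n
      rw [Nat.add_sub_cancel, Nat.factorial_succ, mul_pow]
      push_cast
      have h2 : (n.factorial : ℝ) ≠ 0 := by positivity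
      have h3 : ((n : ℝ) + 1) ≠ 0 := by positivity
      field_simp
      ring
    simp only [h1]
    exact (Real.summable_pow_div_factorial (K * ρ)).mul_left K
  have hy : y ∈ Metric.ball (0 : ℝ) ρ := by
    rw [Metric.mem_ball, dist_zero_right, Real.norm_eq_abs]; linarith
  refine hasDerivAt_tsum_of_isPreconnected (g := fun n z => c n * z ^ n)
    (g' := fun n z => c n * ((n : ℝ) * z ^ (n - 1))) (t := Metric.ball (0 : ℝ) ρ) (y₀ := 0)
    hu Metric.isOpen_ball (convex_ball _ _).isPreconnected ?_ ?_ (Metric.mem_ball_self hρ0) ?_ hy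
  · intro n z _
    have := (hasDerivAt_pow n z).const_mul (c n)
    exact this
  · intro n z hz
    rw [Metric.mem_ball, dist_zero_right, Real.norm_eq_abs] at hz
    rw [Real.norm_eq_abs, abs_mul, abs_mul, abs_pow, Nat.abs_cast]
    gcongr
    exact hc n
  · exact (summable_pow_fact K 0 c hc).of_norm

/-- `θ^j` of the power series -/
noncomputable def FJ (ε : ℝ) (j : ℕ) (y : ℝ) : ℝ := ∑' N : ℕ, (uu ε N * (N : ℝ) ^ j) * y ^ N

lemma FJ_zero (ε y : ℝ) : FJ ε 0 y = FF ε y := by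
  unfold FJ FF
  simp

lemma coef_bound {ε : ℝ} (hε : ε ^ 2 = 1) (j : ℕ) (n : ℕ) :
    |uu ε n * (n : ℝ) ^ j| ≤ ((2 : ℝ) ^ j) ^ n / (n.factorial : ℝ) := by
  rw [abs_mul, abs_of_nonneg (a := (n : ℝ) ^ j) (by positivity)]
  have h1 := uu_abs hε n
  have h2 : (n : ℝ) ≤ 2 ^ n := by
    have := (Nat.lt_two_pow_self (n := n)).le
    exact_mod_cast this
  have h3 : (n : ℝ) ^ j ≤ ((2 : ℝ) ^ j) ^ n := by
    rw [← pow_mul, mul_comm j n, pow_mul]
    exact pow_le_pow_left₀ (by positivity) h2 j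
  calc |uu ε n| * (n : ℝ) ^ j ≤ (1 / (n.factorial : ℝ)) * ((2 : ℝ) ^ j) ^ n :=
        mul_le_mul h1 h3 (by positivity) (by positivity)
    _ = _ := by ring

lemma summable_FJ {ε : ℝ} (hε : ε ^ 2 = 1) (j : ℕ) (y : ℝ) :
    Summable (fun N : ℕ => ‖(uu ε N * (N : ℝ) ^ j) * y ^ N‖) :=
  summable_pow_fact _ y _ (coef_bound hε j)

lemma FJ_deriv {ε : ℝ} (hε : ε ^ 2 = 1) (j : ℕ) (y : ℝ) (hy : y ≠ 0) :
    HasDerivAt (FJ ε j) (FJ ε (j + 1) y / y) y := by
  have h := hasDerivAt_series ((2 : ℝ) ^ j) (by positivity) _ (coef_bound hε j) y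
  refine h.congr_deriv ?_
  unfold FJ
  rw [eq_div_iff hy, ← tsum_mul_right]
  refine tsum_congr fun n => ?_
  rcases n with _ | n
  · simp
  · rw [Nat.add_sub_cancel]; ring

lemma FJ_continuous {ε : ℝ} (hε : ε ^ 2 = 1) (j : ℕ) : Continuous (FJ ε j) := by
  rw [continuous_iff_continuousAt]
  intro y
  exact (hasDerivAt_series ((2 : ℝ) ^ j) (by positivity) _ (coef_bound hε j) y).continuousAt

lemma FJ_at_zero (ε : ℝ) (j : ℕ) : FJ ε (j + 1) 0 = 0 := by
  unfold FJ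
  have : ∀ N : ℕ, uu ε N * (N : ℝ) ^ (j + 1) * 0 ^ N = 0 := by
    intro N
    rcases N with _ | N
    · simp
    · simp
  simp only [this, tsum_zero]

/-- The differential equation (Toda form). -/
theorem FJ_toda {ε : ℝ} (hε : ε ^ 2 = 1) (y : ℝ) :
    FJ ε 0 y * FJ ε 2 y - FJ ε 1 y ^ 2 = ε * y * FJ ε 0 (ε * y) ^ 2 := by
  have h02 := tsum_mul_tsum_eq_tsum_sum_antidiagonal_of_summable_norm
    (summable_FJ hε 0 y) (summable_FJ hε 2 y)
  have h11 := tsum_mul_tsum_eq_tsum_sum_antidiagonal_of_summable_norm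
    (summable_FJ hε 1 y) (summable_FJ hε 1 y)
  have h00 := tsum_mul_tsum_eq_tsum_sum_antidiagonal_of_summable_norm
    (summable_FJ hε 0 (ε * y)) (summable_FJ hε 0 (ε * y))
  have s02 := (summable_norm_sum_mul_antidiagonal_of_summable_norm
    (summable_FJ hε 0 y) (summable_FJ hε 2 y)).of_norm
  have s11 := (summable_norm_sum_mul_antidiagonal_of_summable_norm
    (summable_FJ hε 1 y) (summable_FJ hε 1 y)).of_norm
  have d1 : ∀ n, (∑ kl ∈ antidiagonal n, uu ε kl.1 * (kl.1 : ℝ) ^ 0 * y ^ kl.1 *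
      (uu ε kl.2 * (kl.2 : ℝ) ^ 2 * y ^ kl.2)) - (∑ kl ∈ antidiagonal n,
      uu ε kl.1 * (kl.1 : ℝ) ^ 1 * y ^ kl.1 * (uu ε kl.2 * (kl.2 : ℝ) ^ 1 * y ^ kl.2)) =
      y ^ n * ∑ x ∈ antidiagonal n, uu ε x.1 * uu ε x.2 * ((x.2 : ℝ) ^ 2 - (x.1 : ℝ) * (x.2 : ℝ)) := by
    intro n
    rw [← sum_sub_distrib, mul_sum]
    refine sum_congr rfl fun x hx => ?_
    rw [HasAntidiagonal.mem_antidiagonal] at hx
    rw [← hx, pow_add]
    ring
  have d0 : ∀ n, (∑ kl ∈ antidiagonal n, uu ε kl.1 * (kl.1 : ℝ) ^ 0 * (ε * y) ^ kl.1 *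
      (uu ε kl.2 * (kl.2 : ℝ) ^ 0 * (ε * y) ^ kl.2)) =
      (ε * y) ^ n * ∑ x ∈ antidiagonal n, uu ε x.1 * uu ε x.2 := by
    intro n
    rw [mul_sum]
    refine sum_congr rfl fun x hx => ?_
    rw [HasAntidiagonal.mem_antidiagonal] at hx
    rw [← hx, pow_add]
    ring
  have hL : FJ ε 0 y * FJ ε 2 y - FJ ε 1 y ^ 2 = ∑' n, (y ^ n * ∑ x ∈ antidiagonal n,
      uu ε x.1 * uu ε x.2 * ((x.2 : ℝ) ^ 2 - (x.1 : ℝ) * (x.2 : ℝ))) := by
    rw [pow_two]
    unfold FJ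
    rw [h02, h11, ← s02.tsum_sub s11]
    exact tsum_congr d1
  have hs : Summable (fun n => y ^ n * ∑ x ∈ antidiagonal n,
      uu ε x.1 * uu ε x.2 * ((x.2 : ℝ) ^ 2 - (x.1 : ℝ) * (x.2 : ℝ))) :=
    (s02.sub s11).congr d1
  rw [hL, hs.tsum_eq_zero_add]
  have hR : FJ ε 0 (ε * y) ^ 2 = ∑' n, ((ε * y) ^ n * ∑ x ∈ antidiagonal n, uu ε x.1 * uu ε x.2) := by
    rw [pow_two]
    unfold FJ
    rw [h00]
    exact tsum_congr d0
  rw [hR, ← tsum_mul_left]
  have z0 : y ^ 0 * ∑ x ∈ antidiagonal 0,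
      uu ε x.1 * uu ε x.2 * ((x.2 : ℝ) ^ 2 - (x.1 : ℝ) * (x.2 : ℝ)) = 0 := by simp
  rw [z0, zero_add]
  refine tsum_congr fun n => ?_
  rw [uu_rec hε n, mul_pow]
  ring

/-- first order estimates -/
lemma FF_near {ε : ℝ} (hε : ε ^ 2 = 1) (y : ℝ) :
    |FF ε y - 1 - ε * y| ≤ Real.exp |y| - 1 - |y| := by
  have hs : Summable (fun N : ℕ => uu ε N * y ^ N) :=
    (summable_pow_fact 1 y _ (uu_abs' hε)).of_norm
  have h1 : FF ε y - 1 - ε * y = ∑' n, uu ε (n + 2) * y ^ (n + 2) := by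
    unfold FF
    have := hs.sum_add_tsum_nat_add 2
    rw [← this]
    simp [sum_range_succ, uu_zero, uu_one hε]
    ring
  have h2 : Real.exp |y| - 1 - |y| = ∑' n : ℕ, |y| ^ (n + 2) / ((n + 2).factorial : ℝ) := by
    have hs2 := Real.summable_pow_div_factorial |y|
    have h3 : Real.exp |y| = ∑' n : ℕ, |y| ^ n / (n.factorial : ℝ) := by
      rw [Real.exp_eq_exp_ℝ, NormedSpace.exp_eq_tsum_div]
    have := hs2.sum_add_tsum_nat_add 2
    rw [h3, ← this]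
    simp [sum_range_succ]
    ring
  rw [h1, h2]
  have hs2 : Summable (fun n : ℕ => |y| ^ (n + 2) / ((n + 2).factorial : ℝ)) :=
    (summable_nat_add_iff 2).mpr (Real.summable_pow_div_factorial |y|)
  have hle : ∀ n : ℕ, ‖uu ε (n + 2) * y ^ (n + 2)‖ ≤ |y| ^ (n + 2) / ((n + 2).factorial : ℝ) := by
    intro n
    rw [Real.norm_eq_abs, abs_mul, abs_pow]
    calc |uu ε (n + 2)| * |y| ^ (n + 2) ≤ 1 / ((n + 2).factorial : ℝ) * |y| ^ (n + 2) :=
          mul_le_mul_of_nonneg_right (uu_abs hε _) (by positivity)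
      _ = _ := by ring
  have := norm_tsum_le_tsum_norm (Summable.of_nonneg_of_le (fun n => norm_nonneg _) hle hs2)
  rw [Real.norm_eq_abs] at this
  refine this.trans ?_
  exact (Summable.of_nonneg_of_le (fun n => norm_nonneg _) hle hs2).tsum_le_tsum hle hs2

lemma FF_neg_one : FF (-1) 1 < 0 := by
  have hε : ((-1 : ℝ)) ^ 2 = 1 := by norm_num
  have hs : Summable (fun N : ℕ => uu (-1) N * (1 : ℝ) ^ N) :=
    (summable_pow_fact 1 1 _ (uu_abs' hε)).of_norm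
  have h1 : FF (-1) 1 = -1 / 2 + ∑' n, uu (-1) (n + 3) * (1 : ℝ) ^ (n + 3) := by
    unfold FF
    have := hs.sum_add_tsum_nat_add 3
    rw [← this]
    simp [sum_range_succ, uu_zero, uu_one hε, uu_two hε]
  have h2 : Real.exp 1 - 5 / 2 = ∑' n : ℕ, (1 : ℝ) / ((n + 3).factorial : ℝ) := by
    have hs2 := Real.summable_pow_div_factorial 1
    have h3 : Real.exp 1 = ∑' n : ℕ, (1 : ℝ) ^ n / (n.factorial : ℝ) := by
      rw [Real.exp_eq_exp_ℝ, NormedSpace.exp_eq_tsum_div]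
    have := hs2.sum_add_tsum_nat_add 3
    rw [h3, ← this]
    simp [sum_range_succ]
    norm_num
  have hs2 : Summable (fun n : ℕ => (1 : ℝ) / ((n + 3).factorial : ℝ)) := by
    have := (summable_nat_add_iff 3).mpr (Real.summable_pow_div_factorial 1)
    simpa using this
  have hle : ∀ n : ℕ, uu (-1) (n + 3) * (1 : ℝ) ^ (n + 3) ≤ 1 / ((n + 3).factorial : ℝ) := by
    intro n
    rw [one_pow, mul_one]
    exact (le_abs_self _).trans (uu_abs hε _)
  have := ((summable_nat_add_iff 3).mpr hs).tsum_le_tsum hle hs2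
  have he := Real.exp_one_lt_d9
  rw [h1]
  linarith

end Pool.Agent.H390.Hook
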