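import Mathlib
import Pool.Agent.H390.Final
import Pool.Agent.H390.Hook.Series

/-!
The least positive zero of the hook series and the blow-up solution.
-/

set_option autoImplicit false

open Finset Filter Topology Set

namespace Pool.Agent.H390.Hook

lemma em : ((-1 : ℝ)) ^ 2 = 1 := by norm_num

/-- `F` -/
noncomputable def Fh (y : ℝ) : ℝ := FF (-1) y

/-- `G y = F (-y)` -/
noncomputable def Gh (y : ℝ) : ℝ := FF (-1) (-y)

lemma Fh_continuous : Continuous Fh := by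
  have := FJ_continuous em 0
  refine this.congr ?_
  intro y; exact FJ_zero _ _

lemma Gh_continuous : Continuous Gh := by
  have : Gh = Fh ∘ (fun y => -y) := rfl
  rw [this]
  exact Fh_continuous.comp continuous_neg

lemma Fh_zero : Fh 0 = 1 := by
  have := FF_near em 0
  simp only [mul_zero, sub_zero, abs_zero, Real.exp_zero, sub_self] at this
  have h2 := abs_nonpos_iff.mp this
  unfold Fh
  linarith

lemma Gh_zero : Gh 0 = 1 := by
  unfold Gh
  rw [neg_zero]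
  exact Fh_zero

lemma Gh_ge {y : ℝ} (h0 : 0 ≤ y) (h1 : y ≤ 1) : 1 ≤ Gh y := by
  have h := FF_near em (-y)
  rw [abs_neg, abs_of_nonneg h0] at h
  have h2 := Real.abs_exp_sub_one_sub_id_le (x := y) (by rw [abs_of_nonneg h0]; exact h1)
  have h3 := (abs_le.mp h).1
  have h4 := (abs_le.mp h2).2
  unfold Gh
  nlinarith

/-- the positive zeros -/
def Zs : Set ℝ := {y : ℝ | 0 < y ∧ Fh y = 0}

lemma exists_least : ∃ y₀, IsLeast Zs y₀ ∧ y₀ < 1 := by
  have hne : ∃ y ∈ Ioo (0:ℝ) 1, Fh y = 0 := by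
    have hc : ContinuousOn Fh (Icc 0 1) := Fh_continuous.continuousOn
    have h1 : (0 : ℝ) ∈ Ioo (Fh 1) (Fh 0) := ⟨FF_neg_one, by rw [Fh_zero]; norm_num⟩
    exact intermediate_value_Ioo' (by norm_num) hc h1
  obtain ⟨y1, hy1, hz1⟩ := hne
  have hK : IsCompact {y : ℝ | y ∈ Icc 0 y1 ∧ Fh y = 0} := by
    have : {y : ℝ | y ∈ Icc 0 y1 ∧ Fh y = 0} = Icc 0 y1 ∩ Fh ⁻¹' {0} := by
      ext y; simp
    rw [this]
    exact isCompact_Icc.inter_right (isClosed_singleton.preimage Fh_continuous)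
  obtain ⟨y₀, hy₀, hmin⟩ := hK.exists_isLeast ⟨y1, ⟨hy1.1.le, le_rfl⟩, hz1⟩
  have hy₀pos : 0 < y₀ := by
    rcases hy₀.1.1.lt_or_eq with h | h
    · exact h
    · exfalso
      have := hy₀.2
      rw [← h, Fh_zero] at this
      norm_num at this
  refine ⟨y₀, ⟨⟨hy₀pos, hy₀.2⟩, ?_⟩, lt_of_le_of_lt hy₀.1.2 hy1.2⟩
  intro y hy
  rcases le_or_gt y y1 with h | h
  · exact hmin ⟨⟨hy.1.le, h⟩, hy.2⟩
  · exact hy₀.1.2.trans h.le

lemma Fh_pos {y₀ : ℝ} (h : IsLeast Zs y₀) {y : ℝ} (h0 : 0 ≤ y) (h1 : y < y₀) : 0 < Fh y := by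
  by_contra hn
  push Not at hn
  have hc : ContinuousOn Fh (Icc 0 y) := Fh_continuous.continuousOn
  have h2 : (0 : ℝ) ∈ Icc (Fh y) (Fh 0) := ⟨hn, by rw [Fh_zero]; norm_num⟩
  obtain ⟨z, hz, hz0⟩ := intermediate_value_Icc' h0 hc h2
  have hzpos : 0 < z := by
    rcases hz.1.lt_or_eq with h3 | h3
    · exact h3
    · exfalso
      rw [← h3, Fh_zero] at hz0
      norm_num at hz0
  have := h.2 ⟨hzpos, hz0⟩
  linarith [hz.2]

/-- the solution -/
noncomputable def psi (r : ℝ) : ℝ := 2 * (Real.log (Gh (r / 4)) - Real.log (Fh (r / 4)))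

/-- logarithmic derivative -/
noncomputable def Qh (y : ℝ) : ℝ := FJ (-1) 1 (-y) / Gh y - FJ (-1) 1 y / Fh y

lemma Fh_deriv {y : ℝ} (hy : y ≠ 0) : HasDerivAt Fh (FJ (-1) 1 y / y) y := by
  have h := FJ_deriv em 0 y hy
  refine h.congr_of_eventuallyEq ?_
  exact Eventually.of_forall fun z => (FJ_zero _ _).symm

lemma neg_deriv (j : ℕ) {y : ℝ} (hy : y ≠ 0) :
    HasDerivAt (fun z => FJ (-1) j (-z)) (FJ (-1) (j + 1) (-y) / y) y := by
  have h := FJ_deriv em j (-y) (neg_ne_zero.mpr hy)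
  have h2 := h.comp y (hasDerivAt_neg y)
  refine h2.congr_deriv ?_
  field_simp

lemma Gh_deriv {y : ℝ} (hy : y ≠ 0) : HasDerivAt Gh (FJ (-1) 1 (-y) / y) y := by
  have h := neg_deriv 0 hy
  refine h.congr_of_eventuallyEq ?_
  exact Eventually.of_forall fun z => (FJ_zero _ _).symm

lemma Qh_deriv {y : ℝ} (hy : y ≠ 0) (hF : Fh y ≠ 0) (hG : Gh y ≠ 0) :
    HasDerivAt Qh ((Fh y) ^ 2 / (Gh y) ^ 2 + (Gh y) ^ 2 / (Fh y) ^ 2) y := by
  have h1 := (neg_deriv 1 hy).div (Gh_deriv hy) hG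
  have h2 := (FJ_deriv em 1 y hy).div (Fh_deriv hy) hF
  have h3 := h1.sub h2
  refine h3.congr_deriv ?_
  have t1 := FJ_toda em y
  have t2 := FJ_toda em (-y)
  have e1 : FJ (-1) 0 y = Fh y := FJ_zero _ _
  have e2 : FJ (-1) 0 (-y) = Gh y := FJ_zero _ _
  have e3 : (-1 : ℝ) * y = -y := by ring
  have e4 : (-1 : ℝ) * -y = y := by ring
  rw [e3, e1, e2] at t1
  rw [e4, e1, e2] at t2
  simp only [Nat.reduceAdd]
  field_simp
  have t1' : FJ (-1) 2 y * Fh y = FJ (-1) 1 y ^ 2 - y * Gh y ^ 2 := by linarith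
  have t2' : FJ (-1) 2 (-y) * Gh y = FJ (-1) 1 (-y) ^ 2 + y * Fh y ^ 2 := by linarith
  linear_combination (Fh y) ^ 2 * t2' - (Gh y) ^ 2 * t1'

lemma psi_deriv {y₀ : ℝ} (h : IsLeast Zs y₀) (h1 : y₀ < 1) {r : ℝ} (hr : r ∈ Ioo 0 (4 * y₀)) :
    HasDerivAt psi (2 * Qh (r / 4) / r) r := by
  have hy : r / 4 ≠ 0 := by have := hr.1; positivity
  have hr0 : r ≠ 0 := hr.1.ne'
  have hF : 0 < Fh (r / 4) := Fh_pos h (by linarith [hr.1]) (by linarith [hr.2])
  have hG : 1 ≤ Gh (r / 4) := Gh_ge (by linarith [hr.1]) (by linarith [hr.2])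
  have hd : HasDerivAt (fun r : ℝ => r / 4) (1 / 4) r := (hasDerivAt_id r).div_const 4
  have h2 := ((Gh_deriv hy).log (by linarith : Gh (r / 4) ≠ 0)).comp r hd
  have h3 := ((Fh_deriv hy).log hF.ne').comp r hd
  have h4 := (h2.sub h3).const_mul 2
  refine h4.congr_deriv ?_
  unfold Qh
  have hG' : Gh (r / 4) ≠ 0 := by linarith
  have hF' := hF.ne'
  field_simp

theorem isBlowup_psi {y₀ : ℝ} (h : IsLeast Zs y₀) (h1 : y₀ < 1) : IsBlowup (4 * y₀) psi := by
  have hy0 : 0 < y₀ := h.1.1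
  have hFp : ∀ r, 0 ≤ r → r < 4 * y₀ → 0 < Fh (r / 4) := fun r h2 h3 =>
    Fh_pos h (by linarith) (by linarith)
  have hGp : ∀ r, 0 ≤ r → r < 4 * y₀ → 1 ≤ Gh (r / 4) := fun r h2 h3 =>
    Gh_ge (by linarith) (by linarith)
  refine ⟨by linarith, ?_, ?_, ?_, ?_⟩
  · apply ContinuousOn.mul continuousOn_const
    apply ContinuousOn.sub
    · apply ContinuousOn.log
      · exact (Gh_continuous.comp (continuous_id.div_const 4)).continuousOn
      · intro r hr
        have := hGp r hr.1 hr.2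
        exact (by linarith : Gh (r / 4) ≠ 0)
    · apply ContinuousOn.log
      · exact (Fh_continuous.comp (continuous_id.div_const 4)).continuousOn
      · intro r hr
        exact (hFp r hr.1 hr.2).ne'
  · unfold psi
    rw [zero_div, Fh_zero, Gh_zero]; simp
  · intro r hr
    refine ⟨(psi_deriv h h1 hr).differentiableAt, ?_⟩
    have hF := hFp r hr.1.le hr.2
    have hG := hGp r hr.1.le hr.2
    have hG0 : 0 < Gh (r / 4) := by linarith
    have hy : r / 4 ≠ 0 := by have := hr.1; positivity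
    have hd : HasDerivAt (fun r : ℝ => r / 4) (1 / 4) r := (hasDerivAt_id r).div_const 4
    have h2 := ((Qh_deriv hy hF.ne' hG0.ne').comp r hd).const_mul 2
    have h3 : (fun s => s * deriv psi s) =ᶠ[𝓝 r] fun s => 2 * (Qh ∘ fun r => r / 4) s := by
      filter_upwards [Ioo_mem_nhds hr.1 hr.2] with s hs
      rw [(psi_deriv h h1 hs).deriv]
      have := hs.1.ne'
      simp only [Function.comp]
      field_simp
    refine (h2.congr_of_eventuallyEq h3).congr_deriv ?_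
    rw [Real.cosh_eq]
    unfold psi
    have e1 : Real.exp (2 * (Real.log (Gh (r / 4)) - Real.log (Fh (r / 4)))) =
        (Gh (r / 4)) ^ 2 / (Fh (r / 4)) ^ 2 := by
      rw [← Real.log_div hG0.ne' hF.ne']
      have : (2 : ℝ) * Real.log (Gh (r / 4) / Fh (r / 4)) =
        Real.log (Gh (r / 4) / Fh (r / 4)) + Real.log (Gh (r / 4) / Fh (r / 4)) := by ring
      rw [this, Real.exp_add, Real.exp_log (div_pos hG0 hF)]
      field_simp
    rw [Real.exp_neg, e1]
    field_simp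
    ring
  · have ht : Tendsto (fun r : ℝ => r / 4) (𝓝[<] (4 * y₀)) (𝓝 y₀) := by
      have : Continuous fun r : ℝ => r / 4 := continuous_id.div_const 4
      have h2 := (this.tendsto (4 * y₀)).mono_left (nhdsWithin_le_nhds (s := Iio (4 * y₀)))
      have e : 4 * y₀ / 4 = y₀ := by ring
      rwa [e] at h2
    have hF0 : Tendsto (fun r : ℝ => Fh (r / 4)) (𝓝[<] (4 * y₀)) (𝓝[>] 0) := by
      rw [tendsto_nhdsWithin_iff]
      constructor
      · have := (Fh_continuous.tendsto y₀).comp ht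
        rw [h.1.2] at this
        exact this
      · have : ∀ᶠ r in 𝓝[<] (4 * y₀), r ∈ Ioo 0 (4 * y₀) := Ioo_mem_nhdsLT (by linarith)
        filter_upwards [this] with r hr
        exact hFp r hr.1.le hr.2
    have hlog := Real.tendsto_log_nhdsGT_zero.comp hF0
    have hneg : Tendsto (fun r : ℝ => 2 * (-Real.log (Fh (r / 4)))) (𝓝[<] (4 * y₀)) atTop :=
      (tendsto_neg_atBot_atTop.comp hlog).const_mul_atTop (by norm_num)
    refine tendsto_atTop_mono' _ ?_ hneg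
    have : ∀ᶠ r in 𝓝[<] (4 * y₀), r ∈ Ioo 0 (4 * y₀) := Ioo_mem_nhdsLT (by linarith)
    filter_upwards [this] with r hr
    have hG := hGp r hr.1.le hr.2
    have := Real.log_nonneg hG
    unfold psi
    linarith

theorem hook_constant : ∃ y₀, IsLeast Zs y₀ ∧ y₀ < 1 ∧ IsBlowup (4 * y₀) psi ∧
    Tendsto nikC atTop (𝓝 (Real.pi / (4 * y₀))) := by
  obtain ⟨y₀, h, h1⟩ := exists_least
  exact ⟨y₀, h, h1, isBlowup_psi h h1, tendsto_nikC (isBlowup_psi h h1).facts⟩

end Pool.Agent.H390.Hook
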