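import Mathlib
import Pool.Agent.H390.Hook.Zero

/-!
Numerical values of the first coefficients, by the recursion.
-/

set_option autoImplicit false

open Finset Filter Topology Set

namespace Pool.Agent.H390.Hook

lemma step (N : ℕ) : ((N : ℝ) + 1) ^ 2 * uu (-1) (N + 1) =
    (-1) ^ (N + 1) * (∑ k ∈ range (N + 1), uu (-1) k * uu (-1) (N - k)) -
      ∑ k ∈ range N, uu (-1) (k + 1) * uu (-1) (N - k) *
        (((N - k : ℕ) : ℝ) ^ 2 - ((k : ℝ) + 1) * ((N - k : ℕ) : ℝ)) := by
  have h := uu_rec em N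
  rw [Finset.Nat.sum_antidiagonal_eq_sum_range_succ (fun i j => uu (-1) i * uu (-1) j *
    ((j : ℝ) ^ 2 - (i : ℝ) * (j : ℝ))), Finset.Nat.sum_antidiagonal_eq_sum_range_succ
    (fun i j => uu (-1) i * uu (-1) j), Finset.sum_range_succ', Finset.sum_range_succ] at h
  have e1 : ∀ k ∈ range N, uu (-1) (k + 1) * uu (-1) (N + 1 - (k + 1)) *
      (((N + 1 - (k + 1) : ℕ) : ℝ) ^ 2 - ((k + 1 : ℕ) : ℝ) * ((N + 1 - (k + 1) : ℕ) : ℝ)) =
      uu (-1) (k + 1) * uu (-1) (N - k) *
        (((N - k : ℕ) : ℝ) ^ 2 - ((k : ℝ) + 1) * ((N - k : ℕ) : ℝ)) := by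
    intro k _
    have : N + 1 - (k + 1) = N - k := by omega
    rw [this]
    push_cast
    ring
  rw [Finset.sum_congr rfl e1] at h
  simp only [Nat.sub_self, Nat.cast_zero, uu_zero, Nat.sub_zero] at h
  push_cast at h
  linarith

lemma u0 : uu (-1) 0 = 1 := uu_zero _

lemma u1 : uu (-1) 1 = -1 := by
  have h := step 0
  simp only [Finset.sum_range_succ, Finset.sum_range_zero, Nat.reduceSub, Nat.reduceAdd, u0] at h
  norm_num [u0] at h
  linarith

lemma u2 : uu (-1) 2 = -1 / 2 := by
  have h := step 1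
  simp only [Finset.sum_range_succ, Finset.sum_range_zero, Nat.reduceSub, Nat.reduceAdd, u0, u1] at h
  norm_num [u0, u1] at h
  linarith

lemma u3 : uu (-1) 3 = -1 / 18 := by
  have h := step 2
  simp only [Finset.sum_range_succ, Finset.sum_range_zero, Nat.reduceSub, Nat.reduceAdd, u0, u1, u2] at h
  norm_num [u0, u1, u2] at h
  linarith

lemma u4 : uu (-1) 4 = 1 / 24 := by
  have h := step 3
  simp only [Finset.sum_range_succ, Finset.sum_range_zero, Nat.reduceSub, Nat.reduceAdd, u0, u1, u2, u3] at h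
  norm_num [u0, u1, u2, u3] at h
  linarith

lemma u5 : uu (-1) 5 = -7 / 1800 := by
  have h := step 4
  simp only [Finset.sum_range_succ, Finset.sum_range_zero, Nat.reduceSub, Nat.reduceAdd, u0, u1, u2, u3, u4] at h
  norm_num [u0, u1, u2, u3, u4] at h
  linarith

lemma u6 : uu (-1) 6 = -13 / 32400 := by
  have h := step 5
  simp only [Finset.sum_range_succ, Finset.sum_range_zero, Nat.reduceSub, Nat.reduceAdd, u0, u1, u2, u3, u4, u5] at h
  norm_num [u0, u1, u2, u3, u4, u5] at h
  linarith

lemma u7 : uu (-1) 7 = 23 / 176400 := by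
  have h := step 6
  simp only [Finset.sum_range_succ, Finset.sum_range_zero, Nat.reduceSub, Nat.reduceAdd, u0, u1, u2, u3, u4, u5, u6] at h
  norm_num [u0, u1, u2, u3, u4, u5, u6] at h
  linarith

lemma u8 : uu (-1) 8 = 187 / 12700800 := by
  have h := step 7
  simp only [Finset.sum_range_succ, Finset.sum_range_zero, Nat.reduceSub, Nat.reduceAdd, u0, u1, u2, u3, u4, u5, u6, u7] at h
  norm_num [u0, u1, u2, u3, u4, u5, u6, u7] at h
  linarith

lemma u9 : uu (-1) 9 = -323 / 1028764800 := by
  have h := step 8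
  simp only [Finset.sum_range_succ, Finset.sum_range_zero, Nat.reduceSub, Nat.reduceAdd, u0, u1, u2, u3, u4, u5, u6, u7, u8] at h
  norm_num [u0, u1, u2, u3, u4, u5, u6, u7, u8] at h
  linarith

lemma u10 : uu (-1) 10 = -2101 / 17146080000 := by
  have h := step 9
  simp only [Finset.sum_range_succ, Finset.sum_range_zero, Nat.reduceSub, Nat.reduceAdd, u0, u1, u2, u3, u4, u5, u6, u7, u8, u9] at h
  norm_num [u0, u1, u2, u3, u4, u5, u6, u7, u8, u9] at h
  linarith

lemma u11 : uu (-1) 11 = -24823 / 6224027040000 := by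
  have h := step 10
  simp only [Finset.sum_range_succ, Finset.sum_range_zero, Nat.reduceSub, Nat.reduceAdd, u0, u1, u2, u3, u4, u5, u6, u7, u8, u9, u10] at h
  norm_num [u0, u1, u2, u3, u4, u5, u6, u7, u8, u9, u10] at h
  linarith

lemma u12 : uu (-1) 12 = 258239 / 224064973440000 := by
  have h := step 11
  simp only [Finset.sum_range_succ, Finset.sum_range_zero, Nat.reduceSub, Nat.reduceAdd, u0, u1, u2, u3, u4, u5, u6, u7, u8, u9, u10, u11] at h
  norm_num [u0, u1, u2, u3, u4, u5, u6, u7, u8, u9, u10, u11] at h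
  linarith

lemma u13 : uu (-1) 13 = -185897 / 12622326837120000 := by
  have h := step 12
  simp only [Finset.sum_range_succ, Finset.sum_range_zero, Nat.reduceSub, Nat.reduceAdd, u0, u1, u2, u3, u4, u5, u6, u7, u8, u9, u10, u11, u12] at h
  norm_num [u0, u1, u2, u3, u4, u5, u6, u7, u8, u9, u10, u11, u12] at h
  linarith

lemma u14 : uu (-1) 14 = -15515909 / 3710964090113280000 := by
  have h := step 13
  simp only [Finset.sum_range_succ, Finset.sum_range_zero, Nat.reduceSub, Nat.reduceAdd, u0, u1, u2, u3, u4, u5, u6, u7, u8, u9, u10, u11, u12, u13] at h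
  norm_num [u0, u1, u2, u3, u4, u5, u6, u7, u8, u9, u10, u11, u12, u13] at h
  linarith

lemma u15 : uu (-1) 15 = 15288311 / 92774102252832000000 := by
  have h := step 14
  simp only [Finset.sum_range_succ, Finset.sum_range_zero, Nat.reduceSub, Nat.reduceAdd, u0, u1, u2, u3, u4, u5, u6, u7, u8, u9, u10, u11, u12, u13, u14] at h
  norm_num [u0, u1, u2, u3, u4, u5, u6, u7, u8, u9, u10, u11, u12, u13, u14] at h
  linarith

lemma u16 : uu (-1) 16 = 1012447 / 114183510465024000000 := by
  have h := step 15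
  simp only [Finset.sum_range_succ, Finset.sum_range_zero, Nat.reduceSub, Nat.reduceAdd, u0, u1, u2, u3, u4, u5, u6, u7, u8, u9, u10, u11, u12, u13, u14, u15] at h
  norm_num [u0, u1, u2, u3, u4, u5, u6, u7, u8, u9, u10, u11, u12, u13, u14, u15] at h
  linarith

lemma u17 : uu (-1) 17 = -385591267 / 428987448817095168000000 := by
  have h := step 16
  simp only [Finset.sum_range_succ, Finset.sum_range_zero, Nat.reduceSub, Nat.reduceAdd, u0, u1, u2, u3, u4, u5, u6, u7, u8, u9, u10, u11, u12, u13, u14, u15, u16] at h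
  norm_num [u0, u1, u2, u3, u4, u5, u6, u7, u8, u9, u10, u11, u12, u13, u14, u15, u16] at h
  linarith

lemma u18 : uu (-1) 18 = -24323432179 / 625463700375324754944000000 := by
  have h := step 17
  simp only [Finset.sum_range_succ, Finset.sum_range_zero, Nat.reduceSub, Nat.reduceAdd, u0, u1, u2, u3, u4, u5, u6, u7, u8, u9, u10, u11, u12, u13, u14, u15, u16, u17] at h
  norm_num [u0, u1, u2, u3, u4, u5, u6, u7, u8, u9, u10, u11, u12, u13, u14, u15, u16, u17] at h
  linarith

lemma u19 : uu (-1) 19 = 43688585077 / 25088043981721359614976000000 := by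
  have h := step 18
  simp only [Finset.sum_range_succ, Finset.sum_range_zero, Nat.reduceSub, Nat.reduceAdd, u0, u1, u2, u3, u4, u5, u6, u7, u8, u9, u10, u11, u12, u13, u14, u15, u16, u17, u18] at h
  norm_num [u0, u1, u2, u3, u4, u5, u6, u7, u8, u9, u10, u11, u12, u13, u14, u15, u16, u17, u18] at h
  linarith

lemma u20 : uu (-1) 20 = 190728143393 / 1736864583349940281036800000000 := by
  have h := step 19
  simp only [Finset.sum_range_succ, Finset.sum_range_zero, Nat.reduceSub, Nat.reduceAdd, u0, u1, u2, u3, u4, u5, u6, u7, u8, u9, u10, u11, u12, u13, u14, u15, u16, u17, u18, u19] at h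
  norm_num [u0, u1, u2, u3, u4, u5, u6, u7, u8, u9, u10, u11, u12, u13, u14, u15, u16, u17, u18, u19] at h
  linarith

lemma u21 : uu (-1) 21 = -14362582577753 / 9957444656345207631183974400000000 := by
  have h := step 20
  simp only [Finset.sum_range_succ, Finset.sum_range_zero, Nat.reduceSub, Nat.reduceAdd, u0, u1, u2, u3, u4, u5, u6, u7, u8, u9, u10, u11, u12, u13, u14, u15, u16, u17, u18, u19, u20] at h
  norm_num [u0, u1, u2, u3, u4, u5, u6, u7, u8, u9, u10, u11, u12, u13, u14, u15, u16, u17, u18, u19, u20] at h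
  linarith

lemma u22 : uu (-1) 22 = -168459697445353 / 803233868945180082248840601600000000 := by
  have h := step 21
  simp only [Finset.sum_range_succ, Finset.sum_range_zero, Nat.reduceSub, Nat.reduceAdd, u0, u1, u2, u3, u4, u5, u6, u7, u8, u9, u10, u11, u12, u13, u14, u15, u16, u17, u18, u19, u20, u21] at h
  norm_num [u0, u1, u2, u3, u4, u5, u6, u7, u8, u9, u10, u11, u12, u13, u14, u15, u16, u17, u18, u19, u20, u21] at h
  linarith

lemma u23 : uu (-1) 23 = -1789383206889127 / 1274732150016000790528910034739200000000 := by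
  have h := step 22
  simp only [Finset.sum_range_succ, Finset.sum_range_zero, Nat.reduceSub, Nat.reduceAdd, u0, u1, u2, u3, u4, u5, u6, u7, u8, u9, u10, u11, u12, u13, u14, u15, u16, u17, u18, u19, u20, u21, u22] at h
  norm_num [u0, u1, u2, u3, u4, u5, u6, u7, u8, u9, u10, u11, u12, u13, u14, u15, u16, u17, u18, u19, u20, u21, u22] at h
  linarith

end Pool.Agent.H390.Hook
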