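import Mathlib
import Pool.Agent.H390.Hook.Coeffs

/-!
Rigorous enclosure of the least positive zero.
-/

set_option autoImplicit false

open Finset Filter Topology Set

namespace Pool.Agent.H390.Hook

lemma FF_tail {y : ℝ} (h0 : 0 ≤ y) (h1 : y ≤ 1) (K : ℕ) (hK : 0 < K) :
    |Fh y - ∑ N ∈ range K, uu (-1) N * y ^ N| ≤ y ^ K * (K + 1) / (K.factorial * K) := by
  have hs : Summable (fun N : ℕ => uu (-1) N * y ^ N) :=
    (summable_pow_fact 1 y _ (uu_abs' em)).of_norm
  have h2 : Fh y - ∑ N ∈ range K, uu (-1) N * y ^ N = ∑' n, uu (-1) (n + K) * y ^ (n + K) := by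
    unfold Fh FF
    rw [← hs.sum_add_tsum_nat_add K]
    ring
  have h3 : Real.exp y - ∑ N ∈ range K, y ^ N / (N.factorial : ℝ) =
      ∑' n : ℕ, y ^ (n + K) / ((n + K).factorial : ℝ) := by
    have hs2 := Real.summable_pow_div_factorial y
    have h3 : Real.exp y = ∑' n : ℕ, y ^ n / (n.factorial : ℝ) := by
      rw [Real.exp_eq_exp_ℝ, NormedSpace.exp_eq_tsum_div]
    rw [h3, ← hs2.sum_add_tsum_nat_add K]
    ring
  have hs2 : Summable (fun n : ℕ => y ^ (n + K) / ((n + K).factorial : ℝ)) :=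
    (summable_nat_add_iff K).mpr (Real.summable_pow_div_factorial y)
  have hle : ∀ n : ℕ, ‖uu (-1) (n + K) * y ^ (n + K)‖ ≤ y ^ (n + K) / ((n + K).factorial : ℝ) := by
    intro n
    rw [Real.norm_eq_abs, abs_mul, abs_pow, abs_of_nonneg h0]
    calc |uu (-1) (n + K)| * y ^ (n + K) ≤ 1 / ((n + K).factorial : ℝ) * y ^ (n + K) :=
          mul_le_mul_of_nonneg_right (uu_abs em _) (by positivity)
      _ = _ := by ring
  have h4 := norm_tsum_le_tsum_norm (Summable.of_nonneg_of_le (fun n => norm_nonneg _) hle hs2)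
  rw [Real.norm_eq_abs] at h4
  have h5 := (Summable.of_nonneg_of_le (fun n => norm_nonneg _) hle hs2).tsum_le_tsum hle hs2
  have h6 := Real.exp_bound' h0 h1 hK
  rw [h2]
  refine (h4.trans h5).trans ?_
  rw [← h3]
  linarith

/-- `F` is strictly decreasing on `[0, 1]`. -/
lemma Fh_anti : StrictAntiOn Fh (Icc 0 1) := by
  apply strictAntiOn_of_deriv_neg (convex_Icc _ _) Fh_continuous.continuousOn
  intro y hy
  rw [interior_Icc] at hy
  have hy0 : 0 < y := hy.1
  rw [(Fh_deriv hy0.ne').deriv]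
  apply div_neg_of_neg_of_pos _ hy0
  have hs : Summable (fun N : ℕ => (uu (-1) N * (N : ℝ) ^ 1) * y ^ N) := (summable_FJ em 1 y).of_norm
  have h1 : FJ (-1) 1 y = -y - y ^ 2 + ∑' n, (uu (-1) (n + 3) * ((n + 3 : ℕ) : ℝ) ^ 1) * y ^ (n + 3) := by
    unfold FJ
    have := hs.sum_add_tsum_nat_add 3
    rw [← this]
    simp [sum_range_succ, uu_zero, uu_one em, uu_two em]
    ring
  have h2 : Real.exp y - 1 - y = ∑' n : ℕ, y ^ (n + 2) / ((n + 2).factorial : ℝ) := by
    have hs2 := Real.summable_pow_div_factorial y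
    have h3 : Real.exp y = ∑' n : ℕ, y ^ n / (n.factorial : ℝ) := by
      rw [Real.exp_eq_exp_ℝ, NormedSpace.exp_eq_tsum_div]
    have := hs2.sum_add_tsum_nat_add 2
    rw [h3, ← this]
    simp [sum_range_succ]
    ring
  have hs2 : Summable (fun n : ℕ => y * (y ^ (n + 2) / ((n + 2).factorial : ℝ))) :=
    ((summable_nat_add_iff 2).mpr (Real.summable_pow_div_factorial y)).mul_left y
  have hle : ∀ n : ℕ, (uu (-1) (n + 3) * ((n + 3 : ℕ) : ℝ) ^ 1) * y ^ (n + 3) ≤
      y * (y ^ (n + 2) / ((n + 2).factorial : ℝ)) := by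
    intro n
    have h4 : uu (-1) (n + 3) ≤ 1 / ((n + 3).factorial : ℝ) := (le_abs_self _).trans (uu_abs em _)
    calc (uu (-1) (n + 3) * ((n + 3 : ℕ) : ℝ) ^ 1) * y ^ (n + 3)
        ≤ (1 / ((n + 3).factorial : ℝ) * ((n + 3 : ℕ) : ℝ) ^ 1) * y ^ (n + 3) := by gcongr
      _ = y * (y ^ (n + 2) / ((n + 2).factorial : ℝ)) := by
          rw [Nat.factorial_succ (n + 2)]
          push_cast
          have h5 : ((n + 2).factorial : ℝ) ≠ 0 := by positivity
          have h6 : ((n : ℝ) + 2 + 1) ≠ 0 := by positivity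
          field_simp
          ring
  have h7 := ((summable_nat_add_iff 3).mpr hs).tsum_le_tsum hle hs2
  rw [tsum_mul_left, ← h2] at h7
  have h8 := Real.abs_exp_sub_one_sub_id_le (x := y) (by rw [abs_of_pos hy0]; exact hy.2.le)
  have h9 := (abs_le.mp h8).2
  rw [h1]
  have h10 : y * (Real.exp y - 1 - y) ≤ y * y ^ 2 := mul_le_mul_of_nonneg_left h9 hy0.le
  nlinarith [hy.2, hy0, mul_pos hy0 hy0]

lemma Fh_lo : 0 < Fh (72597182068806897585160 / 10 ^ 23) := by
  have h := FF_tail (y := 72597182068806897585160 / 10 ^ 23) (by norm_num) (by norm_num) 24 (by norm_num)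
  have h2 := (abs_le.mp h).1
  simp only [Finset.sum_range_succ, Finset.sum_range_zero, u0, u1, u2, u3, u4, u5, u6, u7, u8, u9, u10, u11, u12, u13, u14, u15, u16, u17, u18, u19, u20, u21, u22, u23] at h2
  norm_num [Nat.factorial] at h2 ⊢
  linarith

lemma Fh_hi : Fh (72597182068806897585161 / 10 ^ 23) < 0 := by
  have h := FF_tail (y := 72597182068806897585161 / 10 ^ 23) (by norm_num) (by norm_num) 24 (by norm_num)
  have h2 := (abs_le.mp h).2
  simp only [Finset.sum_range_succ, Finset.sum_range_zero, u0, u1, u2, u3, u4, u5, u6, u7, u8, u9, u10, u11, u12, u13, u14, u15, u16, u17, u18, u19, u20, u21, u22, u23] at h2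
  norm_num [Nat.factorial] at h2 ⊢
  linarith

lemma y0_bounds {y₀ : ℝ} (h : IsLeast Zs y₀) :
    72597182068806897585160 / 10 ^ 23 < y₀ ∧ y₀ < 72597182068806897585161 / 10 ^ 23 := by
  have hlo := Fh_lo
  have hhi := Fh_hi
  have hy1 : y₀ < 1 := by
    obtain ⟨y1, h1, h2⟩ := exists_least
    rwa [h.unique h1]
  have hz : Fh y₀ = 0 := h.1.2
  have hy0 := h.1.1
  constructor
  · by_contra hn
    push Not at hn
    have := Fh_anti.antitoneOn ⟨hy0.le, hy1.le⟩ ⟨by norm_num, by norm_num⟩ hn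
    linarith
  · by_contra hn
    push Not at hn
    have := Fh_anti.antitoneOn ⟨by norm_num, by norm_num⟩ ⟨hy0.le, hy1.le⟩ hn
    linarith

lemma C_bounds {y₀ : ℝ} (h : IsLeast Zs y₀) :
    1.08185764380366117878 < Real.pi / (4 * y₀) ∧ Real.pi / (4 * y₀) < 1.08185764380366117879 := by
  obtain ⟨h1, h2⟩ := y0_bounds h
  have hy0 := h.1.1
  have hp1 := Real.pi_gt_d20
  have hp2 := Real.pi_lt_d20
  constructor
  · rw [lt_div_iff₀ (by positivity)]
    have : (1.08185764380366117878 : ℝ) * (4 * y₀) < 1.08185764380366117878 * (4 * (72597182068806897585161 / 10 ^ 23)) := by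
      linarith
    refine this.trans (lt_of_lt_of_le ?_ hp1.le)
    norm_num
  · rw [div_lt_iff₀ (by positivity)]
    have : (1.08185764380366117879 : ℝ) * (4 * (72597182068806897585160 / 10 ^ 23)) < 1.08185764380366117879 * (4 * y₀) := by
      linarith
    refine hp2.trans (lt_of_le_of_lt ?_ this)
    norm_num

/-- Only the values on `[0, R)` matter. -/
lemma IsBlowup_congr {R : ℝ} {ψ φ : ℝ → ℝ} (h : IsBlowup R ψ) (he : ∀ r ∈ Ico 0 R, φ r = ψ r) :
    IsBlowup R φ := by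
  obtain ⟨hR, hc, h0, hd, hb⟩ := h
  refine ⟨hR, hc.congr he, by rw [he 0 ⟨le_rfl, hR⟩, h0], ?_, ?_⟩
  · intro r hr
    have hev : φ =ᶠ[𝓝 r] ψ := by
      filter_upwards [Ioo_mem_nhds hr.1 hr.2] with s hs
      exact he s ⟨hs.1.le, hs.2⟩
    refine ⟨(hd r hr).1.congr_of_eventuallyEq hev, ?_⟩
    rw [hev.eq_of_nhds]
    refine (hd r hr).2.congr_of_eventuallyEq ?_
    filter_upwards [hev.deriv] with s hs
    rw [hs]
  · refine hb.congr' ?_
    have : ∀ᶠ r in 𝓝[<] R, r ∈ Ioo 0 R := Ioo_mem_nhdsLT hR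
    filter_upwards [this] with r hr
    exact (he r ⟨hr.1.le, hr.2⟩).symm

end Pool.Agent.H390.Hook
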